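import Mathlib

set_option autoImplicit false
open Filter Topology

namespace Pool.Agent.H45.KA

/-- The four directions of a `4`-regular labelled system. -/
abbrev Dir := Fin 2 × Bool

/-- The opposite direction. -/
def op (d : Dir) : Dir := (d.1, !d.2)

@[simp] lemma op_op (d : Dir) : op (op d) = d := by
  rcases d with ⟨i, b⟩; simp [op]

/-- Uniformly continuous maps on a normed space are Lipschitz for large distances. -/
lemma large_scale {X : Type*} [NormedAddCommGroup X] [NormedSpace ℝ X] (ψ : X → X) (δ : ℝ)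
    (hδ : 0 < δ) (h : ∀ x y : X, dist x y < δ → dist (ψ x) (ψ y) < 1) (x y : X) :
    dist (ψ x) (ψ y) ≤ dist x y / δ + 1 := by
  have key : ∀ (N : ℕ) (x y : X), dist x y < (N + 1 : ℝ) * δ →
      dist (ψ x) (ψ y) ≤ (N + 1 : ℝ) := by
    intro N
    induction N with
    | zero =>
      intro x y hxy
      have := h x y (by simpa using hxy)
      simpa using this.le
    | succ N ih =>
      intro x y hxy
      set t : ℝ := (N + 1 : ℝ) / (N + 2 : ℝ) with ht
      have hN : (0 : ℝ) < (N + 2 : ℝ) := by positivity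
      set z : X := AffineMap.lineMap x y t with hz
      have h1 : dist x z = t * dist x y := by
        rw [hz, dist_left_lineMap, Real.norm_of_nonneg (by positivity)]
      have h2 : dist z y = (1 - t) * dist x y := by
        rw [hz, dist_lineMap_right, Real.norm_of_nonneg]
        rw [ht, sub_nonneg, div_le_one hN]
        linarith
      have hxy' : dist x y < (N + 2 : ℝ) * δ := by
        have : ((N + 1 : ℕ) : ℝ) + 1 = (N + 2 : ℝ) := by push_cast; ring
        rw [this] at hxy; exact hxy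
      have h3 : dist x z < (N + 1 : ℝ) * δ := by
        rw [h1]
        calc t * dist x y < t * ((N + 2 : ℝ) * δ) := by
              apply mul_lt_mul_of_pos_left hxy'; positivity
          _ = (N + 1 : ℝ) * δ := by rw [ht]; field_simp
      have h4 : dist z y < δ := by
        rw [h2]
        have h1t : 1 - t = 1 / (N + 2 : ℝ) := by rw [ht]; field_simp; ring
        rw [h1t]
        calc 1 / (N + 2 : ℝ) * dist x y < 1 / (N + 2 : ℝ) * ((N + 2 : ℝ) * δ) := by
              apply mul_lt_mul_of_pos_left hxy'; positivity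
          _ = δ := by field_simp
      calc dist (ψ x) (ψ y) ≤ dist (ψ x) (ψ z) + dist (ψ z) (ψ y) := dist_triangle _ _ _
        _ ≤ (N + 1 : ℝ) + 1 := add_le_add (ih x z h3) (h z y h4).le
        _ = ((N + 1 : ℕ) : ℝ) + 1 := by push_cast; ring
  have h0 : 0 ≤ dist x y / δ := by positivity
  have h1 : dist x y / δ < ⌊dist x y / δ⌋₊ + 1 := Nat.lt_floor_add_one _
  have h2 := key ⌊dist x y / δ⌋₊ x y (by rwa [div_lt_iff₀ hδ] at h1)
  have h3 : (⌊dist x y / δ⌋₊ : ℝ) ≤ dist x y / δ := Nat.floor_le h0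
  linarith

/-- The change of variables `(s, d) ↦ (s·d, op d)`. -/
lemma sum_reindex {G : Type*} (step : G → Dir → G)
    (step_op : ∀ s d, step (step s d) (op d) = s) (A : Finset G)
    (hA : ∀ s d, s ∈ A → step s d ∈ A) (F : G → Dir → ℝ) :
    ∑ s ∈ A, ∑ d, F (step s d) (op d) = ∑ s ∈ A, ∑ d, F s d := by
  classical
  rw [← Finset.sum_product', ← Finset.sum_product']
  refine Finset.sum_bij' (fun p _ => (step p.1 p.2, op p.2)) (fun p _ => (step p.1 p.2, op p.2))
    ?_ ?_ ?_ ?_ ?_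
  · rintro ⟨s, d⟩ h
    simp only [Finset.mem_product, Finset.mem_univ, and_true] at h ⊢
    exact hA s d h
  · rintro ⟨s, d⟩ h
    simp only [Finset.mem_product, Finset.mem_univ, and_true] at h ⊢
    exact hA s d h
  · rintro ⟨s, d⟩ h
    simp [step_op]
  · rintro ⟨s, d⟩ h
    simp [step_op]
  · rintro ⟨s, d⟩ h
    rfl

/-- The core estimate. -/
theorem core {X : Type*} [NormedAddCommGroup X] [NormedSpace ℝ X] {G : Type*}
    (step : G → Dir → G) (step_op : ∀ s d, step (step s d) (op d) = s)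
    (lay : ℕ → Finset G) (lay_ne : ∀ r, (lay r).Nonempty)
    (lay_step : ∀ r s d, s ∈ lay r → step s d ∈ lay r) (q : G → G)
    (J : G → Dir → X →L[ℝ] ℝ) (D : G → X →L[ℝ] ℝ) (ξ : G → X) (ψ : X → X)
    (cJ cD L R ℓ : ℝ) (hcJ : 0 ≤ cJ) (hcD : 0 ≤ cD) (hL : 0 ≤ L)
    (hJ : ∀ s d v, |J s d v| ≤ cJ * ‖v‖) (hD : ∀ s v, |D s v| ≤ cD * ‖v‖)
    (anti : ∀ s d v, J (step s d) (op d) v = - J s d v)
    (hz : ∀ v, Tendsto (fun r => (∑ s ∈ lay r, |∑ d, J s d v - D s v|) / ((lay r).card : ℝ))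
      atTop (𝓝 0))
    (h1 : ∀ s d, dist (ξ s) (ξ (step s d)) ≤ 1) (h2 : ∀ s, dist (ξ s) (ξ (q s)) ≤ R)
    (hψ : ∀ x y, dist (ψ x) (ψ y) ≤ L * (dist x y + 1))
    (hq : ∀ s, dist (ψ (ξ (q s))) (ξ (q s)) ≤ 1)
    (h6 : ∀ s, ℓ - 1 ≤ D s (ξ (q s)))
    (hc : TotallyBounded (Set.range ψ)) :
    ℓ - 1 - cD ≤ 4 * cJ * L + cD * (L * (R + 1)) := by
  classical
  apply le_of_forall_pos_le_add
  intro ε hε
  set M : ℝ := 4 * cJ + cD with hM
  have hM0 : 0 ≤ M := by positivity
  set η : ℝ := ε / (2 * (M + 1)) with hη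
  have hη0 : 0 < η := by positivity
  -- finite net
  obtain ⟨t, htf, ht⟩ := Metric.totallyBounded_iff.mp hc η hη0
  have hnet : ∀ x, ∃ v ∈ htf.toFinset, dist (ψ x) v < η := by
    intro x
    have := ht (Set.mem_range_self x)
    simp only [Set.mem_iUnion, Metric.mem_ball] at this
    obtain ⟨v, hv, hd⟩ := this
    exact ⟨v, by simpa using hv, hd⟩
  -- the imbalance functional bound
  have himb : ∀ s v, |∑ d, J s d v - D s v| ≤ M * ‖v‖ := by
    intro s v
    have a1 : |∑ d, J s d v| ≤ 4 * cJ * ‖v‖ := by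
      refine (Finset.abs_sum_le_sum_abs _ _).trans ?_
      refine (Finset.sum_le_sum (fun d _ => hJ s d v)).trans ?_
      simp [Finset.card_univ]
      nlinarith [norm_nonneg v]
    have a2 := abs_sub (∑ d, J s d v) (D s v)
    have a3 := hD s v
    rw [hM]
    nlinarith [norm_nonneg v]
  -- choose the layer
  have hlim : Tendsto (fun r => ∑ v ∈ htf.toFinset,
      (∑ s ∈ lay r, |∑ d, J s d v - D s v|) / ((lay r).card : ℝ)) atTop (𝓝 0) := by
    have := tendsto_finsetSum (htf.toFinset) (fun v _ => hz v)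
    simpa using this
  have hev : ∀ᶠ r in atTop, ∑ v ∈ htf.toFinset,
      (∑ s ∈ lay r, |∑ d, J s d v - D s v|) / ((lay r).card : ℝ) < ε / 2 :=
    hlim.eventually_lt_const (by positivity)
  obtain ⟨r, hr⟩ := hev.exists
  set A := lay r with hA
  set n : ℝ := (A.card : ℝ) with hn
  have hn0 : 0 < n := by
    rw [hn]; exact_mod_cast Finset.card_pos.mpr (lay_ne r)
  -- the first sum
  have hS1 : ∑ s ∈ A, |∑ d, J s d (ψ (ξ s)) - D s (ψ (ξ s))| ≤ n * ε := by
    have b1 : ∀ s ∈ A, |∑ d, J s d (ψ (ξ s)) - D s (ψ (ξ s))| ≤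
        ∑ v ∈ htf.toFinset, |∑ d, J s d v - D s v| + M * η := by
      intro s _
      obtain ⟨v, hv, hd⟩ := hnet (ξ s)
      have e1 : ∑ d, J s d (ψ (ξ s)) - D s (ψ (ξ s)) =
          (∑ d, J s d v - D s v) + (∑ d, J s d (ψ (ξ s) - v) - D s (ψ (ξ s) - v)) := by
        simp only [map_sub, Finset.sum_sub_distrib]; ring
      rw [e1]
      refine (abs_add_le _ _).trans (add_le_add ?_ ?_)
      · exact Finset.single_le_sum (f := fun v => |∑ d, J s d v - D s v|)
          (fun _ _ => abs_nonneg _) hv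
      · refine (himb s _).trans (mul_le_mul_of_nonneg_left ?_ hM0)
        rw [← dist_eq_norm]; exact hd.le
    calc ∑ s ∈ A, |∑ d, J s d (ψ (ξ s)) - D s (ψ (ξ s))|
        ≤ ∑ s ∈ A, (∑ v ∈ htf.toFinset, |∑ d, J s d v - D s v| + M * η) :=
          Finset.sum_le_sum b1
      _ = (∑ v ∈ htf.toFinset, ∑ s ∈ A, |∑ d, J s d v - D s v|) + n * (M * η) := by
          rw [Finset.sum_add_distrib, Finset.sum_comm]; simp [hn]
      _ = n * (∑ v ∈ htf.toFinset, (∑ s ∈ A, |∑ d, J s d v - D s v|) / n) + n * (M * η) := by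
          rw [← Finset.sum_div]; field_simp
      _ ≤ n * (ε / 2) + n * (ε / 2) := by
          have c1 : M * η ≤ ε / 2 := by
            rw [hη, mul_div_assoc', div_le_div_iff₀ (by positivity) (by positivity)]
            nlinarith
          have c2 := hr.le
          nlinarith
      _ = n * ε := by ring
  -- reindexing
  have hre : ∑ s ∈ A, ∑ d, J s d (ψ (ξ (step s d))) = - ∑ s ∈ A, ∑ d, J s d (ψ (ξ s)) := by
    have c1 := sum_reindex step step_op A (lay_step r)
      (fun s d => J s d (ψ (ξ (step s d))))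
    rw [← c1, ← Finset.sum_neg_distrib]
    refine Finset.sum_congr rfl (fun s _ => ?_)
    rw [← Finset.sum_neg_distrib]
    refine Finset.sum_congr rfl (fun d _ => ?_)
    rw [step_op, anti]
  have hT : ∑ s ∈ A, ((1 / 2) * ∑ d, J s d (ψ (ξ s) - ψ (ξ (step s d))) +
      D s (ψ (ξ (q s)) - ψ (ξ s))) =
      ∑ s ∈ A, (∑ d, J s d (ψ (ξ s)) - D s (ψ (ξ s))) + ∑ s ∈ A, D s (ψ (ξ (q s))) := by
    simp only [map_sub, Finset.sum_sub_distrib, Finset.sum_add_distrib, ← Finset.mul_sum, hre]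
    ring
  have hup : ∑ s ∈ A, ((1 / 2) * ∑ d, J s d (ψ (ξ s) - ψ (ξ (step s d))) +
      D s (ψ (ξ (q s)) - ψ (ξ s))) ≤ n * (4 * cJ * L + cD * (L * (R + 1))) := by
    have : ∀ s ∈ A, ((1 / 2) * ∑ d, J s d (ψ (ξ s) - ψ (ξ (step s d))) +
      D s (ψ (ξ (q s)) - ψ (ξ s))) ≤ 4 * cJ * L + cD * (L * (R + 1)) := by
      intro s _
      have d1 : ∀ d, J s d (ψ (ξ s) - ψ (ξ (step s d))) ≤ cJ * (2 * L) := by
        intro d
        refine (le_abs_self _).trans ((hJ s d _).trans ?_)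
        refine mul_le_mul_of_nonneg_left ?_ hcJ
        rw [← dist_eq_norm]
        refine (hψ _ _).trans ?_
        have := h1 s d
        nlinarith
      have d2 : D s (ψ (ξ (q s)) - ψ (ξ s)) ≤ cD * (L * (R + 1)) := by
        refine (le_abs_self _).trans ((hD s _).trans ?_)
        refine mul_le_mul_of_nonneg_left ?_ hcD
        rw [← dist_eq_norm, dist_comm]
        refine (hψ _ _).trans ?_
        have := h2 s
        nlinarith
      have d3 : ∑ d, J s d (ψ (ξ s) - ψ (ξ (step s d))) ≤ 4 * (cJ * (2 * L)) := by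
        refine (Finset.sum_le_sum (fun d _ => d1 d)).trans ?_
        simp [Finset.card_univ]
      nlinarith
    refine (Finset.sum_le_sum this).trans ?_
    rw [Finset.sum_const, nsmul_eq_mul]
  have hlow : n * (ℓ - 1 - cD) ≤ ∑ s ∈ A, D s (ψ (ξ (q s))) := by
    have : ∀ s ∈ A, ℓ - 1 - cD ≤ D s (ψ (ξ (q s))) := by
      intro s _
      have e1 : D s (ψ (ξ (q s))) = D s (ξ (q s)) + D s (ψ (ξ (q s)) - ξ (q s)) := by
        simp
      have e2 : |D s (ψ (ξ (q s)) - ξ (q s))| ≤ cD := by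
        refine (hD s _).trans ?_
        rw [← dist_eq_norm]
        have := hq s
        nlinarith [dist_nonneg (x := ψ (ξ (q s))) (y := ξ (q s))]
      have e3 := abs_le.mp e2
      have e4 := h6 s
      linarith [e3.1]
    calc n * (ℓ - 1 - cD) = ∑ s ∈ A, (ℓ - 1 - cD) := by rw [Finset.sum_const, nsmul_eq_mul]
      _ ≤ _ := Finset.sum_le_sum this
  have hlow1 : - (n * ε) ≤ ∑ s ∈ A, (∑ d, J s d (ψ (ξ s)) - D s (ψ (ξ s))) := by
    have e1 : |∑ s ∈ A, (∑ d, J s d (ψ (ξ s)) - D s (ψ (ξ s)))| ≤ n * ε :=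
      (Finset.abs_sum_le_sum_abs _ _).trans hS1
    exact (abs_le.mp e1).1
  have hfin : n * (ℓ - 1 - cD) ≤ n * (4 * cJ * L + cD * (L * (R + 1)) + ε) := by
    rw [hT] at hup
    nlinarith
  exact le_of_mul_le_mul_left hfin hn0

end Pool.Agent.H45.KA
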