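import Pool.Agent.H45.KA.Core

set_option autoImplicit false
open Filter Topology

namespace Pool.Agent.H45.KA

/-- The data of a kernel at scale `ℓ`. -/
structure Kern (ℓ : ℝ) where
  G : Type
  cG : Countable G
  step : G → Dir → G
  step_op : ∀ s d, step (step s d) (op d) = s
  lay : ℕ → Finset G
  lay_ne : ∀ r, (lay r).Nonempty
  lay_step : ∀ r s d, s ∈ lay r → step s d ∈ lay r
  q : G → G
  q_fin : (Set.range q).Finite
  j : G → Dir → G → ℝ
  D : G → G → ℝ
  K1 : ∀ s d x, j (step s d) (op d) x = - j s d x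
  K2 : ∀ s d x, |j s d x| ≤ ℓ
  K3 : ∀ s d x b, |j s d x - j s d (step x b)| ≤ 1
  K4 : ∀ s x b, |D s x - D s (step x b)| ≤ 8
  K4' : ∀ s x, |D s x| ≤ ℓ + 8
  K5 : ∀ s x, |D s x - D s (q x)| ≤ 8
  K6 : ∀ s, ℓ - 8 ≤ D s (q s)
  K7 : ∀ x, Tendsto (fun r => (∑ s ∈ lay r, |∑ d, j s d x - D s x|) / ((lay r).card : ℝ))
    atTop (𝓝 0)

section space

variable (K : ∀ m : ℕ, Kern (((m : ℝ) + 1) ^ 2))

/-- The vertex set. -/
abbrev V := Σ m, (K m).G

/-- Admissible functions on the vertex set. -/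
def Adm (F : V K → ℝ) : Prop :=
  (∀ m x, |F ⟨m, x⟩| ≤ ((m : ℝ) + 1) ^ 2 + 8) ∧
  (∀ m x b, |F ⟨m, x⟩ - F ⟨m, (K m).step x b⟩| ≤ 1) ∧
  (∀ m x, |F ⟨m, x⟩ - F ⟨m, (K m).q x⟩| ≤ (m : ℝ) + 1)

/-- The index set of admissible functions. -/
def Idx := {F : V K → ℝ // Adm K F}

instance : TopologicalSpace (Idx K) := ⊥
instance : DiscreteTopology (Idx K) := ⟨rfl⟩

/-- The ambient space. -/
abbrev Amb := BoundedContinuousFunction (Idx K) ℝ

/-- The points. -/
noncomputable def pt (v : V K) : Amb K :=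
  BoundedContinuousFunction.ofNormedAddCommGroupDiscrete (fun F => F.1 v)
    (((v.1 : ℝ) + 1) ^ 2 + 8) (fun F => F.2.1 v.1 v.2)

@[simp] lemma pt_apply (v : V K) (F : Idx K) : pt K v F = F.1 v := rfl

/-- The space. -/
noncomputable abbrev XS : Submodule ℝ (Amb K) := (Submodule.span ℝ (Set.range (pt K))).topologicalClosure

lemma pt_mem (v : V K) : pt K v ∈ XS K :=
  Submodule.le_topologicalClosure _ (Submodule.subset_span (Set.mem_range_self v))

instance : CompleteSpace (XS K) :=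
  (Submodule.isClosed_topologicalClosure _).completeSpace_coe

lemma sep : TopologicalSpace.SeparableSpace (XS K) := by
  have : ∀ m, Countable (K m).G := fun m => (K m).cG
  have h1 : TopologicalSpace.IsSeparable (Set.range (pt K)) :=
    (Set.countable_range (pt K)).isSeparable
  have h2 : TopologicalSpace.IsSeparable
      (Submodule.span ℝ (Set.range (pt K)) : Set (Amb K)) := h1.span
  have h3 := h2.closure
  rw [← Submodule.topologicalClosure_coe] at h3
  exact h3.separableSpace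

/-- Extension by zero. -/
noncomputable def ext (m : ℕ) (F : (K m).G → ℝ) : V K → ℝ :=
  fun v => if h : v.1 = m then F (h ▸ v.2) else 0

lemma ext_same (m : ℕ) (F : (K m).G → ℝ) (x : (K m).G) : ext K m F ⟨m, x⟩ = F x := by
  simp [ext]

lemma ext_ne (m m' : ℕ) (F : (K m).G → ℝ) (x : (K m').G) (h : m' ≠ m) :
    ext K m F ⟨m', x⟩ = 0 := by
  simp [ext, h]

lemma ext_adm (m : ℕ) (F : (K m).G → ℝ) (h1 : ∀ x, |F x| ≤ ((m : ℝ) + 1) ^ 2 + 8)
    (h2 : ∀ x b, |F x - F ((K m).step x b)| ≤ 1)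
    (h3 : ∀ x, |F x - F ((K m).q x)| ≤ (m : ℝ) + 1) : Adm K (ext K m F) := by
  refine ⟨?_, ?_, ?_⟩
  · intro m' x
    by_cases h : m' = m
    · subst h; rw [ext_same]; exact h1 x
    · rw [ext_ne K m m' F x h]; simp; positivity
  · intro m' x b
    by_cases h : m' = m
    · subst h; rw [ext_same, ext_same]; exact h2 x b
    · rw [ext_ne K m m' F x h, ext_ne K m m' F _ h]; simp
  · intro m' x
    by_cases h : m' = m
    · subst h; rw [ext_same, ext_same]; exact h3 x
    · rw [ext_ne K m m' F x h, ext_ne K m m' F _ h]; simp; positivity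

/-- The abstract properties of the space. -/
theorem exists_space : ∃ (X : Type) (_ : NormedAddCommGroup X) (_ : NormedSpace ℝ X)
    (_ : CompleteSpace X) (_ : TopologicalSpace.SeparableSpace X) (p : V K → X),
    (∀ m x b, ‖p ⟨m, x⟩ - p ⟨m, (K m).step x b⟩‖ ≤ 1) ∧
    (∀ m x, ‖p ⟨m, x⟩ - p ⟨m, (K m).q x⟩‖ ≤ (m : ℝ) + 1) ∧
    (∀ F : V K → ℝ, Adm K F → ∃ Λ : X →L[ℝ] ℝ, (∀ v, |Λ v| ≤ ‖v‖) ∧ ∀ v, Λ (p v) = F v) ∧
    (∀ v : X, v ∈ closure (Submodule.span ℝ (Set.range p) : Set X)) := by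
  refine ⟨XS K, inferInstance, inferInstance, inferInstance, sep K,
    fun v => ⟨pt K v, pt_mem K v⟩, ?_, ?_, ?_, ?_⟩
  · intro m x b
    change ‖pt K ⟨m, x⟩ - pt K ⟨m, (K m).step x b⟩‖ ≤ 1
    rw [BoundedContinuousFunction.norm_le zero_le_one]
    intro F
    exact F.2.2.1 m x b
  · intro m x
    change ‖pt K ⟨m, x⟩ - pt K ⟨m, (K m).q x⟩‖ ≤ (m : ℝ) + 1
    rw [BoundedContinuousFunction.norm_le (by positivity)]
    intro F
    exact F.2.2.2 m x
  · intro F hF
    have hb : ∀ v : XS K, ‖(v : Amb K) (⟨F, hF⟩ : Idx K)‖ ≤ 1 * ‖v‖ := by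
      intro v
      rw [one_mul]
      exact BoundedContinuousFunction.norm_coe_le_norm (v : Amb K) (⟨F, hF⟩ : Idx K)
    refine ⟨LinearMap.mkContinuous
      { toFun := fun v => (v : Amb K) (⟨F, hF⟩ : Idx K)
        map_add' := fun u v => rfl
        map_smul' := fun a v => rfl } 1 hb, ?_, ?_⟩
    · intro v
      have := hb v
      rw [one_mul, Real.norm_eq_abs] at this
      exact this
    · intro v
      rfl
  · rintro ⟨v, hv⟩
    have hv' : v ∈ closure (Submodule.span ℝ (Set.range (pt K)) : Set (Amb K)) := by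
      rw [← Submodule.topologicalClosure_coe]; exact hv
    obtain ⟨w, hw, hlim⟩ := mem_closure_iff_seq_limit.mp hv'
    rw [mem_closure_iff_seq_limit]
    refine ⟨fun n => ⟨w n, Submodule.le_topologicalClosure _ (hw n)⟩, ?_, ?_⟩
    · intro n
      have key : ∀ u : Amb K, ∀ hu : u ∈ Submodule.span ℝ (Set.range (pt K)),
          (⟨u, Submodule.le_topologicalClosure _ hu⟩ : XS K) ∈
          Submodule.span ℝ (Set.range (fun v : V K => (⟨pt K v, pt_mem K v⟩ : XS K))) := by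
        intro u hu
        induction hu using Submodule.span_induction with
        | mem x hx => obtain ⟨v, rfl⟩ := hx; exact Submodule.subset_span ⟨v, rfl⟩
        | zero => exact Submodule.zero_mem _
        | add x y hx hy h1 h2 => exact Submodule.add_mem _ h1 h2
        | smul a x hx h1 => exact Submodule.smul_mem _ a h1
      exact key _ (hw n)
    · rw [tendsto_subtype_rng]; exact hlim

end space

/-- A property of vectors that holds at the points and is stable under closed linear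
combinations holds everywhere. -/
lemma cl_induction {X T : Type*} [NormedAddCommGroup X] [NormedSpace ℝ X] (p : T → X)
    (hd : ∀ v : X, v ∈ closure (Submodule.span ℝ (Set.range p) : Set X))
    (P : X → Prop) (h0 : ∀ v, P (p v))
    (hz : P 0) (hadd : ∀ u v, P u → P v → P (u + v)) (hsmul : ∀ (a : ℝ) v, P v → P (a • v))
    (hcl : IsClosed {v | P v}) (v : X) : P v := by
  have hspan : (Submodule.span ℝ (Set.range p) : Set X) ⊆ {v | P v} := by
    intro w hw
    rw [Set.mem_ofPred_eq]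
    rw [SetLike.mem_coe] at hw
    induction hw using Submodule.span_induction with
    | mem x hx => obtain ⟨v, rfl⟩ := hx; exact h0 v
    | zero => exact hz
    | add x y hx hy h1 h2 => exact hadd _ _ h1 h2
    | smul a x hx h1 => exact hsmul a _ h1
  exact (closure_minimal hspan hcl) (hd v)

section null

variable {X : Type*} [NormedAddCommGroup X] [NormedSpace ℝ X] {G : Type*}
  (lay : ℕ → Finset G) (lay_ne : ∀ r, (lay r).Nonempty) (Λ : G → X →L[ℝ] ℝ)

/-- The averages of `|Λ s v|` over the layers. -/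
noncomputable def avg (r : ℕ) (v : X) : ℝ := (∑ s ∈ lay r, |Λ s v|) / ((lay r).card : ℝ)

lemma avg_nonneg (r : ℕ) (v : X) : 0 ≤ avg lay Λ r v := by
  unfold avg; positivity

lemma avg_add (r : ℕ) (u v : X) : avg lay Λ r (u + v) ≤ avg lay Λ r u + avg lay Λ r v := by
  unfold avg
  rw [← add_div]
  refine div_le_div_of_nonneg_right ?_ (by positivity)
  rw [← Finset.sum_add_distrib]
  refine Finset.sum_le_sum (fun s _ => ?_)
  rw [map_add]; exact abs_add_le _ _

lemma avg_smul (r : ℕ) (a : ℝ) (v : X) : avg lay Λ r (a • v) = |a| * avg lay Λ r v := by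
  unfold avg
  rw [← mul_div_assoc, Finset.mul_sum]
  congr 1
  refine Finset.sum_congr rfl (fun s _ => ?_)
  rw [map_smul, smul_eq_mul, abs_mul]

include lay_ne in
lemma avg_le (M : ℝ) (h : ∀ s v, |Λ s v| ≤ M * ‖v‖) (r : ℕ) (v : X) :
    avg lay Λ r v ≤ M * ‖v‖ := by
  unfold avg
  have hn0 : (0 : ℝ) < ((lay r).card : ℝ) := by
    exact_mod_cast Finset.card_pos.mpr (lay_ne r)
  rw [div_le_iff₀ hn0]
  refine (Finset.sum_le_sum (fun s _ => h s v)).trans ?_
  rw [Finset.sum_const, nsmul_eq_mul, mul_comm]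

include lay_ne in
lemma closed_null (M : ℝ) (hM : 0 ≤ M) (h : ∀ s v, |Λ s v| ≤ M * ‖v‖) :
    IsClosed {v | Tendsto (fun r => avg lay Λ r v) atTop (𝓝 0)} := by
  apply isClosed_of_closure_subset
  intro u hu
  rw [Set.mem_ofPred_eq, Metric.tendsto_atTop]
  intro ε hε
  obtain ⟨v, hv, huv⟩ := Metric.mem_closure_iff.mp hu (ε / (2 * (M + 1))) (by positivity)
  rw [Set.mem_ofPred_eq, Metric.tendsto_atTop] at hv
  obtain ⟨N, hN⟩ := hv (ε / 2) (by positivity)
  refine ⟨N, fun r hr => ?_⟩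
  have h1 := hN r hr
  rw [Real.dist_eq, sub_zero, abs_of_nonneg (avg_nonneg lay Λ r v)] at h1
  rw [Real.dist_eq, sub_zero, abs_of_nonneg (avg_nonneg lay Λ r u)]
  rw [dist_eq_norm] at huv
  have h2 : M * ‖u - v‖ ≤ ε / 2 := by
    have : M * ‖u - v‖ ≤ (M + 1) * (ε / (2 * (M + 1))) := by
      apply mul_le_mul (by linarith) huv.le (norm_nonneg _) (by linarith)
    have e : (M + 1) * (ε / (2 * (M + 1))) = ε / 2 := by field_simp
    linarith
  have h3 := avg_add lay Λ r v (u - v)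
  rw [add_sub_cancel] at h3
  have h4 := avg_le lay lay_ne Λ M h r (u - v)
  linarith

end null


lemma final_ineq (L m : ℝ) (hL : 0 ≤ L) (hm : 20 * L + 20 < m)
    (h : (m + 1) ^ 2 - 7 - 1 - 8 ≤ 4 * (2 * (m + 1)) * L + 8 * (L * (m + 1 + 1))) : False := by
  nlinarith [mul_nonneg hL hL, mul_nonneg hL (by linarith : (0 : ℝ) ≤ m - (20 * L + 20)),
    mul_nonneg (by linarith : (0 : ℝ) ≤ m) (by linarith : (0 : ℝ) ≤ m - (20 * L + 20))]

/-- The functional attached to a scaled admissible function. -/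
lemma exists_functional (K : ∀ m : ℕ, Kern (((m : ℝ) + 1) ^ 2))
    {X : Type} [NormedAddCommGroup X] [NormedSpace ℝ X] (p : V K → X)
    (hF : ∀ F : V K → ℝ, Adm K F → ∃ Λ : X →L[ℝ] ℝ, (∀ v, |Λ v| ≤ ‖v‖) ∧ ∀ v, Λ (p v) = F v)
    (m : ℕ) (c : ℝ) (hc : 0 < c) (F : (K m).G → ℝ)
    (h1 : ∀ x, |F x| ≤ c * (((m : ℝ) + 1) ^ 2 + 8))
    (h2 : ∀ x b, |F x - F ((K m).step x b)| ≤ c)
    (h3 : ∀ x, |F x - F ((K m).q x)| ≤ c * ((m : ℝ) + 1)) :
    ∃ Λ : X →L[ℝ] ℝ, (∀ v, |Λ v| ≤ c * ‖v‖) ∧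
      (∀ x : (K m).G, Λ (p ⟨m, x⟩) = F x) ∧
      (∀ (m' : ℕ) (x : (K m').G), m' ≠ m → Λ (p ⟨m', x⟩) = 0) := by
  have hadm : Adm K (ext K m (fun x => F x / c)) := by
    apply ext_adm
    · intro x
      rw [abs_div, abs_of_pos hc, div_le_iff₀ hc, mul_comm]; exact h1 x
    · intro x b
      rw [← sub_div, abs_div, abs_of_pos hc, div_le_one hc]; exact h2 x b
    · intro x
      rw [← sub_div, abs_div, abs_of_pos hc, div_le_iff₀ hc, mul_comm]; exact h3 x
  obtain ⟨Λ, hΛ1, hΛ2⟩ := hF _ hadm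
  refine ⟨c • Λ, ?_, ?_, ?_⟩
  · intro v
    rw [smul_apply, smul_eq_mul, abs_mul, abs_of_pos hc]
    exact mul_le_mul_of_nonneg_left (hΛ1 v) hc.le
  · intro x
    rw [smul_apply, smul_eq_mul, hΛ2, ext_same]
    field_simp
  · intro m' x h
    rw [smul_apply, smul_eq_mul, hΛ2, ext_ne K m m' _ x h, mul_zero]

/-- **The functional-analytic part**: kernels at all scales give a separable Banach space which
is not approximable. -/
theorem not_approx_of_kern (K : ∀ m : ℕ, Kern (((m : ℝ) + 1) ^ 2)) :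
    ¬ (∀ (X : Type) [NormedAddCommGroup X] [NormedSpace ℝ X] [CompleteSpace X]
      [TopologicalSpace.SeparableSpace X],
      ∃ ψ : ℕ → X → X,
        (∀ ε : ℝ, 0 < ε → ∃ δ : ℝ, 0 < δ ∧
          ∀ (n : ℕ) (x y : X), dist x y < δ → dist (ψ n x) (ψ n y) < ε) ∧
        (∀ n : ℕ, IsCompact (closure (Set.range (ψ n)))) ∧
        (∀ x : X, Tendsto (fun n => ψ n x) atTop (𝓝 x))) := by
  intro hall
  obtain ⟨X, i1, i2, i3, i4, p, hp1, hp2, hF, hd⟩ := exists_space K
  obtain ⟨ψ, huc, hcomp, hlim⟩ := hall X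
  obtain ⟨δ, hδ, hψδ⟩ := huc 1 one_pos
  set L : ℝ := 1 / δ + 1 with hL
  have hL0 : 0 ≤ L := by positivity
  have hψL : ∀ n x y, dist (ψ n x) (ψ n y) ≤ L * (dist x y + 1) := by
    intro n x y
    have := large_scale (ψ n) δ hδ (hψδ n) x y
    have h0 : (0 : ℝ) ≤ dist x y := dist_nonneg
    have h1 : dist x y / δ = 1 / δ * dist x y := by ring
    have h2 : 0 < 1 / δ := by positivity
    rw [hL]
    nlinarith
  -- choose the scale
  obtain ⟨m, hm⟩ := exists_nat_gt (20 * L + 20)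
  have hm0 : (0 : ℝ) ≤ (m : ℝ) := Nat.cast_nonneg m
  -- functionals
  have hJex : ∀ s d, ∃ Λ : X →L[ℝ] ℝ, (∀ v, |Λ v| ≤ (2 * ((m : ℝ) + 1)) * ‖v‖) ∧
      (∀ x : (K m).G, Λ (p ⟨m, x⟩) = (K m).j s d x) ∧
      (∀ (m' : ℕ) (x : (K m').G), m' ≠ m → Λ (p ⟨m', x⟩) = 0) := by
    intro s d
    apply exists_functional K p hF m (2 * ((m : ℝ) + 1)) (by positivity) ((K m).j s d)
    · intro x
      refine ((K m).K2 s d x).trans ?_
      nlinarith [mul_nonneg hm0 hm0, mul_nonneg (mul_nonneg hm0 hm0) hm0]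
    · intro x b
      refine ((K m).K3 s d x b).trans ?_
      linarith
    · intro x
      have h1 := (K m).K2 s d x
      have h2 := (K m).K2 s d ((K m).q x)
      have h3 := abs_sub ((K m).j s d x) ((K m).j s d ((K m).q x))
      nlinarith
  have hDex : ∀ s, ∃ Λ : X →L[ℝ] ℝ, (∀ v, |Λ v| ≤ 8 * ‖v‖) ∧
      (∀ x : (K m).G, Λ (p ⟨m, x⟩) = (K m).D s x) ∧
      (∀ (m' : ℕ) (x : (K m').G), m' ≠ m → Λ (p ⟨m', x⟩) = 0) := by
    intro s
    apply exists_functional K p hF m 8 (by norm_num) ((K m).D s)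
    · intro x
      refine ((K m).K4' s x).trans ?_
      nlinarith
    · intro x b
      exact (K m).K4 s x b
    · intro x
      refine ((K m).K5 s x).trans ?_
      linarith
  choose J hJ1 hJ2 hJ3 using hJex
  choose D hD1 hD2 hD3 using hDex
  -- antisymmetry
  have anti : ∀ s d v, J ((K m).step s d) (op d) v = - J s d v := by
    intro s d v
    induction v using cl_induction p hd with
    | h0 v =>
      rcases v with ⟨m', x⟩
      by_cases h : m' = m
      · subst h; rw [hJ2, hJ2]; exact (K m').K1 s d x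
      · rw [hJ3 _ _ _ _ h, hJ3 _ _ _ _ h]; simp
    | hz => simp
    | hadd u v h1 h2 => rw [map_add, map_add, h1, h2]; ring
    | hsmul a v h1 => rw [map_smul, map_smul, h1]; simp
    | hcl => exact isClosed_eq (by fun_prop) (by fun_prop)
  -- the imbalance
  let Λ : (K m).G → X →L[ℝ] ℝ := fun s => ∑ d, J s d - D s
  have hΛ : ∀ s v, Λ s v = ∑ d, J s d v - D s v := by
    intro s v
    change (∑ d, J s d - D s) v = _
    rw [sub_apply, sum_apply]
  have himb : ∀ s v, |Λ s v| ≤ (4 * (2 * ((m : ℝ) + 1)) + 8) * ‖v‖ := by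
    intro s v
    rw [hΛ]
    have a1 : |∑ d, J s d v| ≤ 4 * (2 * ((m : ℝ) + 1)) * ‖v‖ := by
      refine (Finset.abs_sum_le_sum_abs _ _).trans ?_
      refine (Finset.sum_le_sum (fun d _ => hJ1 s d v)).trans ?_
      simp [Finset.card_univ]
      nlinarith [norm_nonneg v]
    have a2 := abs_sub (∑ d, J s d v) (D s v)
    have a3 := hD1 s v
    nlinarith [norm_nonneg v]
  have hz' : ∀ v, Tendsto (fun r => avg (K m).lay Λ r v) atTop (𝓝 0) := by
    intro v
    induction v using cl_induction p hd with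
    | h0 v =>
      rcases v with ⟨m', x⟩
      by_cases h : m' = m
      · subst h
        have := (K m').K7 x
        simp only [avg, hΛ, hJ2, hD2]
        exact this
      · simp only [avg, hΛ, hJ3 _ _ _ _ h, hD3 _ _ _ h]
        simp
    | hz => simp [avg]
    | hadd u v h1 h2 =>
      have h3 := h1.add h2
      rw [add_zero] at h3
      exact squeeze_zero (fun r => avg_nonneg _ _ _ _) (fun r => avg_add _ _ _ _ _) h3
    | hsmul a v h1 =>
      have h3 := h1.const_mul |a|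
      rw [mul_zero] at h3
      refine h3.congr (fun r => ?_)
      rw [avg_smul]
    | hcl => exact closed_null (K m).lay (K m).lay_ne Λ _ (by positivity) himb
  have hz : ∀ v, Tendsto (fun r => (∑ s ∈ (K m).lay r, |∑ d, J s d v - D s v|) /
      (((K m).lay r).card : ℝ)) atTop (𝓝 0) := by
    intro v
    have := hz' v
    simp only [avg, hΛ] at this
    exact this
  -- choose the approximating map
  have hev : ∀ᶠ n in atTop, ∀ x ∈ Set.range (K m).q, dist (ψ n (p ⟨m, x⟩)) (p ⟨m, x⟩) < 1 := by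
    rw [Filter.eventually_all_finite (K m).q_fin]
    intro x _
    exact (Metric.tendsto_nhds.mp (hlim (p ⟨m, x⟩))) 1 one_pos
  obtain ⟨n, hn⟩ := hev.exists
  have h1 : ∀ s d, dist (p ⟨m, s⟩) (p ⟨m, (K m).step s d⟩) ≤ 1 := by
    intro s d
    rw [dist_eq_norm]
    exact hp1 m s d
  have h2 : ∀ s, dist (p ⟨m, s⟩) (p ⟨m, (K m).q s⟩) ≤ (m : ℝ) + 1 := by
    intro s
    rw [dist_eq_norm]
    exact hp2 m s
  have hq : ∀ s, dist (ψ n (p ⟨m, (K m).q s⟩)) (p ⟨m, (K m).q s⟩) ≤ 1 := by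
    intro s
    exact (hn _ (Set.mem_range_self s)).le
  have h6 : ∀ s, (((m : ℝ) + 1) ^ 2 - 7) - 1 ≤ D s (p ⟨m, (K m).q s⟩) := by
    intro s
    rw [hD2]; linarith [(K m).K6 s]
  have htb : TotallyBounded (Set.range (ψ n)) :=
    (hcomp n).totallyBounded.subset subset_closure
  have hfin := core (K m).step (K m).step_op (K m).lay (K m).lay_ne (K m).lay_step (K m).q J D
    (fun x => p ⟨m, x⟩) (ψ n)
    (2 * ((m : ℝ) + 1)) 8 L ((m : ℝ) + 1) (((m : ℝ) + 1) ^ 2 - 7) (by positivity) (by norm_num) hL0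
    hJ1 hD1 anti hz h1 h2 (hψL n) hq h6 htb
  exact final_ineq L m hL0 hm hfin

end Pool.Agent.H45.KA
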