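import Pool.Agent.H45.KA.Prob
import Pool.Agent.H45.KA.Space

set_option autoImplicit false
open Filter Topology

namespace Pool.Agent.H45.KA

/-- The lists of length at most `n`. -/
noncomputable def Lists (n : ℕ) : Finset (List Dir) := by
  classical
  exact (Finset.univ : Finset (Σ k : Fin (n + 1), List.Vector Dir k)).image (fun z => z.2.toList)

lemma mem_Lists (n : ℕ) (l : List Dir) (h : l.length ≤ n) : l ∈ Lists n := by
  classical
  unfold Lists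
  rw [Finset.mem_image]
  exact ⟨⟨⟨l.length, by omega⟩, ⟨l, rfl⟩⟩, Finset.mem_univ _, rfl⟩

lemma card_Lists (n : ℕ) : (Lists n).card ≤ (n + 1) * 4 ^ n := by
  classical
  unfold Lists
  refine Finset.card_image_le.trans ?_
  rw [Finset.card_univ, Fintype.card_sigma]
  have : ∀ k ∈ (Finset.univ : Finset (Fin (n + 1))),
      Fintype.card (List.Vector Dir k) ≤ 4 ^ n := by
    intro k _
    rw [card_vector]
    have h4 : Fintype.card Dir = 4 := by simp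
    rw [h4]
    exact Nat.pow_le_pow_right (by norm_num) (by omega)
  refine (Finset.sum_le_card_nsmul _ _ _ this).trans ?_
  simp

/-- The finite quotient at scale `ℓ`. -/
abbrev Hl (ℓ : ℕ) := Equiv.Perm (Ball Io (2 * ℓ + 2))

noncomputable instance fhl (ℓ : ℕ) : Fintype (Hl ℓ) := inferInstance

/-- The homomorphism at scale `ℓ`. -/
noncomputable def rhl (ℓ : ℕ) : FreeGroup Io →* Hl ℓ := rho Io (2 * ℓ + 2)

lemma injl (ℓ : ℕ) : InjBall (rhl ℓ) ℓ := fun g h1 h2 => rho_inj g h1 h2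

open Classical in
/-- The bad states of the layer `r`. -/
noncomputable def Bd (ℓ r : ℕ) (x : Hl ℓ × YY) : Finset (Hl ℓ × Yr r) :=
  Finset.univ.filter (fun s => ¬ Good SY (rhl ℓ) ℓ (s.1, ⟨r, s.2⟩) x ∧
    nu (rhl ℓ) ℓ s.1 x.1 < ℓ)

lemma card_Bd (ℓ r : ℕ) (hr : ℓ ≤ r) (x : Hl ℓ × YY) :
    (Bd ℓ r x).card ≤ Fintype.card (Hl ℓ) * ((r + ℓ + 1) * 4 ^ (r + ℓ)) *
      (Fintype.card (Yr r) / 8 ^ r) := by
  classical
  let F : Hl ℓ × List Dir → Finset (Hl ℓ × Yr r) := fun z =>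
    if (rel (rhl ℓ) ℓ z.1 x.1 * SY.ev x.2 z.2).norm = r then
      (Rd r (rel (rhl ℓ) ℓ z.1 x.1 * SY.ev x.2 z.2)).image (fun y => (z.1, y)) else ∅
  have hsub : Bd ℓ r x ⊆ ((Finset.univ : Finset (Hl ℓ)) ×ˢ Lists (r + ℓ)).biUnion F := by
    rintro ⟨h, y⟩ hs
    unfold Bd at hs
    rw [Finset.mem_filter] at hs
    obtain ⟨_, hbad, hnu⟩ := hs
    have hn := norm_of_nu (rhl ℓ) ℓ h x.1 hnu
    unfold Good Tg at hbad
    obtain ⟨u, hu1, hu2, hu3⟩ := SY.exists_common ⟨r, y⟩ (rel (rhl ℓ) ℓ h x.1) x.2 hbad r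
      (by omega)
    obtain ⟨l, hl1, hl2⟩ := SY.exists_NB _ _ hu2
    have hlen : l.length ≤ r + ℓ := by
      have e1 := SY.norm_ev x.2 l hl1
      rw [hl2] at e1
      have e2 := FreeGroup.norm_mul_le (rel (rhl ℓ) ℓ h x.1)⁻¹ u
      rw [FreeGroup.norm_inv_eq] at e2
      omega
    have hue : rel (rhl ℓ) ℓ h x.1 * SY.ev x.2 l = u := by
      rw [hl2]; group
    rw [Finset.mem_biUnion]
    refine ⟨(h, l), ?_, ?_⟩
    · rw [Finset.mem_product]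
      exact ⟨Finset.mem_univ _, mem_Lists _ _ hlen⟩
    · simp only [F]
      rw [hue, if_pos hu3, Finset.mem_image]
      exact ⟨y, (mem_Rd r u y).mpr hu1, rfl⟩
  refine (Finset.card_le_card hsub).trans ?_
  refine (Finset.card_biUnion_le_card_mul _ _ (Fintype.card (Yr r) / 8 ^ r) ?_).trans ?_
  · intro z _
    simp only [F]
    split_ifs with h
    · refine Finset.card_image_le.trans ?_
      rw [Nat.le_div_iff_mul_le (by positivity)]
      exact card_Rd r _ h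
    · simp
  · apply Nat.mul_le_mul_right
    rw [Finset.card_product, Finset.card_univ]
    exact Nat.mul_le_mul_left _ (card_Lists _)

/-- The embedding of a layer. -/
def emb (ℓ r : ℕ) : (Hl ℓ × Yr r) ↪ (Hl ℓ × YY) where
  toFun s := (s.1, ⟨r, s.2⟩)
  inj' := by
    rintro ⟨h, y⟩ ⟨h', y'⟩ e
    simp only [Prod.mk.injEq, Sigma.mk.injEq, heq_eq_eq, true_and] at e
    rw [e.1, e.2]

/-- The layer. -/
noncomputable def lay (ℓ r : ℕ) : Finset (Hl ℓ × YY) := Finset.univ.map (emb ℓ r)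

lemma rate (ℓ : ℕ) : Tendsto (fun r : ℕ => (5 * (ℓ : ℝ) + 2) *
    (((r : ℝ) + ℓ + 1) * 4 ^ (r + ℓ) / 8 ^ r)) atTop (𝓝 0) := by
  have h1 : Tendsto (fun r : ℕ => ((r : ℝ) ^ 1 * (1 / 2 : ℝ) ^ r)) atTop (𝓝 0) :=
    tendsto_pow_const_mul_const_pow_of_abs_lt_one 1 (by rw [abs_of_pos] <;> norm_num)
  have h0 : Tendsto (fun r : ℕ => ((1 / 2 : ℝ) ^ r)) atTop (𝓝 0) :=
    tendsto_pow_atTop_nhds_zero_of_lt_one (by norm_num) (by norm_num)
  have h2 := ((h1.add (h0.const_mul ((ℓ : ℝ) + 1))).const_mul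
    ((5 * (ℓ : ℝ) + 2) * 4 ^ ℓ))
  simp only [mul_zero, add_zero] at h2
  refine h2.congr (fun r => ?_)
  have e : (8 : ℝ) ^ r = 4 ^ r * 2 ^ r := by rw [← mul_pow]; norm_num
  rw [e, pow_add, one_div, inv_pow]
  field_simp
  ring

lemma K7l (ℓ : ℕ) (x : Hl ℓ × YY) :
    Tendsto (fun r => (∑ s ∈ lay ℓ r, |∑ d, jj SY (rhl ℓ) ℓ s d x - DD SY (rhl ℓ) ℓ s x|) /
      ((lay ℓ r).card : ℝ)) atTop (𝓝 0) := by
  classical
  refine squeeze_zero' (Eventually.of_forall (fun r => by positivity)) ?_ (rate ℓ)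
  filter_upwards [eventually_ge_atTop ℓ] with r hr
  have hsum : ∑ s ∈ lay ℓ r, |∑ d, jj SY (rhl ℓ) ℓ s d x - DD SY (rhl ℓ) ℓ s x| ≤
      (5 * (ℓ : ℝ) + 2) * ((Bd ℓ r x).card : ℝ) := by
    unfold lay
    rw [Finset.sum_map]
    have : ∀ s ∈ (Finset.univ : Finset (Hl ℓ × Yr r)),
        |∑ d, jj SY (rhl ℓ) ℓ (emb ℓ r s) d x - DD SY (rhl ℓ) ℓ (emb ℓ r s) x| ≤
        if s ∈ Bd ℓ r x then (5 * (ℓ : ℝ) + 2) else 0 := by
      intro s _
      by_cases hs : s ∈ Bd ℓ r x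
      · rw [if_pos hs]
        exact imb_abs SY (rhl ℓ) ℓ (injl ℓ) _ _
      · rw [if_neg hs]
        have h1 : Good SY (rhl ℓ) ℓ (emb ℓ r s) x ∨ ¬ nu (rhl ℓ) ℓ (emb ℓ r s).1 x.1 < ℓ := by
          unfold Bd at hs
          rw [Finset.mem_filter] at hs
          by_contra hcon
          apply hs
          push Not at hcon
          exact ⟨Finset.mem_univ _, hcon.1, hcon.2⟩
        rw [imb_zero SY (rhl ℓ) ℓ _ _ h1, abs_zero]
    refine (Finset.sum_le_sum this).trans ?_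
    rw [Finset.sum_ite_mem, Finset.univ_inter, Finset.sum_const, nsmul_eq_mul, mul_comm]
  have hcard : ((lay ℓ r).card : ℝ) = (Fintype.card (Hl ℓ) : ℝ) * (Fintype.card (Yr r) : ℝ) := by
    unfold lay
    rw [Finset.card_map, Finset.card_univ, Fintype.card_prod]; push_cast; rfl
  have hH : (0 : ℝ) < (Fintype.card (Hl ℓ) : ℝ) := by
    exact_mod_cast Fintype.card_pos
  have hY : (0 : ℝ) < (Fintype.card (Yr r) : ℝ) := by
    exact_mod_cast Fintype.card_pos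
  have hB : ((Bd ℓ r x).card : ℝ) ≤ (Fintype.card (Hl ℓ) : ℝ) *
      (((r : ℝ) + ℓ + 1) * 4 ^ (r + ℓ)) * ((Fintype.card (Yr r) : ℝ) / 8 ^ r) := by
    have h1 := card_Bd ℓ r hr x
    have h2 : ((Bd ℓ r x).card : ℝ) ≤ ((Fintype.card (Hl ℓ) * ((r + ℓ + 1) * 4 ^ (r + ℓ)) *
      (Fintype.card (Yr r) / 8 ^ r) : ℕ) : ℝ) := by exact_mod_cast h1
    refine h2.trans ?_
    push_cast
    refine mul_le_mul_of_nonneg_left ?_ (by positivity)
    have h3 := @Nat.cast_div_le ℝ _ _ _ (Fintype.card (Yr r)) (8 ^ r)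
    push_cast at h3
    exact h3
  rw [hcard, div_le_iff₀ (by positivity)]
  refine hsum.trans ?_
  calc (5 * (ℓ : ℝ) + 2) * ((Bd ℓ r x).card : ℝ) ≤ (5 * (ℓ : ℝ) + 2) *
        ((Fintype.card (Hl ℓ) : ℝ) * (((r : ℝ) + ℓ + 1) * 4 ^ (r + ℓ)) *
          ((Fintype.card (Yr r) : ℝ) / 8 ^ r)) :=
        mul_le_mul_of_nonneg_left hB (by positivity)
    _ = _ := by ring

/-- A base state. -/
noncomputable def y0 : YY := ⟨0, (1, fun _ => 0)⟩

/-- The kernel at scale `ℓ`. -/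
noncomputable def kern (ℓ : ℕ) : Kern (ℓ : ℝ) where
  G := Hl ℓ × YY
  cG := inferInstance
  step := gstep SY (rhl ℓ)
  step_op := gstep_op SY (rhl ℓ)
  lay := lay ℓ
  lay_ne := fun r => by
    unfold lay
    rw [Finset.map_nonempty]
    exact Finset.univ_nonempty
  lay_step := by
    intro r s d hs
    unfold lay at hs ⊢
    rw [Finset.mem_map] at hs ⊢
    obtain ⟨⟨h, p, β⟩, _, rfl⟩ := hs
    exact ⟨(h * rhl ℓ (ltr (SY.lam ⟨r, (p, β)⟩ d)), (p * tg r d, β)), Finset.mem_univ _, rfl⟩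
  q := fun s => (s.1, y0)
  q_fin := by
    refine (Set.finite_range (fun h : Hl ℓ => ((h, y0) : Hl ℓ × YY))).subset ?_
    rintro _ ⟨s, rfl⟩
    exact ⟨s.1, rfl⟩
  j := jj SY (rhl ℓ) ℓ
  D := DD SY (rhl ℓ) ℓ
  K1 := jj_anti SY (rhl ℓ) ℓ
  K2 := jj_abs SY (rhl ℓ) ℓ (injl ℓ)
  K3 := jj_lip SY (rhl ℓ) ℓ (injl ℓ)
  K4 := by
    intro s x b
    have h1 := abs_le.mp (DD_near SY (rhl ℓ) ℓ (injl ℓ) s x)
    have h2 := abs_le.mp (DD_near SY (rhl ℓ) ℓ (injl ℓ) s (gstep SY (rhl ℓ) x b))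
    have h3 : nu (rhl ℓ) ℓ s.1 (gstep SY (rhl ℓ) x b).1 ≤ nu (rhl ℓ) ℓ s.1 x.1 + 1 :=
      nu_stepx (rhl ℓ) ℓ (injl ℓ) _ _ _
    have h4 : nu (rhl ℓ) ℓ s.1 x.1 ≤ nu (rhl ℓ) ℓ s.1 (gstep SY (rhl ℓ) x b).1 + 1 :=
      nu_stepx' (rhl ℓ) ℓ (injl ℓ) _ _ _
    have h3' : (nu (rhl ℓ) ℓ s.1 (gstep SY (rhl ℓ) x b).1 : ℝ) ≤ nu (rhl ℓ) ℓ s.1 x.1 + 1 := by
      exact_mod_cast h3
    have h4' : (nu (rhl ℓ) ℓ s.1 x.1 : ℝ) ≤ nu (rhl ℓ) ℓ s.1 (gstep SY (rhl ℓ) x b).1 + 1 := by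
      exact_mod_cast h4
    rw [abs_le]
    constructor <;> linarith [h1.1, h1.2, h2.1, h2.2]
  K4' := by
    intro s x
    have h1 := abs_le.mp (DD_near SY (rhl ℓ) ℓ (injl ℓ) s x)
    have h2 := nu_le (rhl ℓ) ℓ s.1 x.1
    have h2' : (nu (rhl ℓ) ℓ s.1 x.1 : ℝ) ≤ ℓ := by exact_mod_cast h2
    have h3 : (0 : ℝ) ≤ nu (rhl ℓ) ℓ s.1 x.1 := by positivity
    rw [abs_le]
    constructor <;> linarith [h1.1, h1.2]
  K5 := by
    intro s x
    have h1 := abs_le.mp (DD_near SY (rhl ℓ) ℓ (injl ℓ) s x)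
    have h2 := abs_le.mp (DD_near SY (rhl ℓ) ℓ (injl ℓ) s (x.1, y0))
    simp only at h2
    rw [abs_le]
    constructor <;> linarith [h1.1, h1.2, h2.1, h2.2]
  K6 := by
    intro s
    have h1 := abs_le.mp (DD_near SY (rhl ℓ) ℓ (injl ℓ) s (s.1, y0))
    simp only [nu_self (rhl ℓ) ℓ (injl ℓ)] at h1
    have := h1.1
    push_cast at this
    linarith
  K7 := K7l ℓ

/-- The answer. -/
theorem main :
    ¬ (∀ (X : Type) [NormedAddCommGroup X] [NormedSpace ℝ X] [CompleteSpace X]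
      [TopologicalSpace.SeparableSpace X],
      ∃ ψ : ℕ → X → X,
        (∀ ε : ℝ, 0 < ε → ∃ δ : ℝ, 0 < δ ∧
          ∀ (n : ℕ) (x y : X), dist x y < δ → dist (ψ n x) (ψ n y) < ε) ∧
        (∀ n : ℕ, IsCompact (closure (Set.range (ψ n)))) ∧
        (∀ x : X, Tendsto (fun n => ψ n x) atTop (𝓝 x))) := by
  have h : ∀ m : ℕ, Nonempty (Kern (((m : ℝ) + 1) ^ 2)) := by
    intro m
    have e : (((m + 1) ^ 2 : ℕ) : ℝ) = ((m : ℝ) + 1) ^ 2 := by push_cast; ring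
    rw [← e]
    exact ⟨kern _⟩
  exact not_approx_of_kern (fun m => (h m).some)

end Pool.Agent.H45.KA
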