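import Pool.Agent.H45.KA.Pot

set_option autoImplicit false
open Filter Topology

namespace Pool.Agent.H45.KA

section kernel

variable {ι Y H : Type} [DecidableEq ι] [Nonempty ι] [Group H] (S : Sys ι Y)
  (ρ : FreeGroup ι →* H) (ℓ : ℕ)

/-- A far away element. -/
noncomputable def far : FreeGroup ι := (FreeGroup.of (Classical.arbitrary ι)) ^ (ℓ + 2)

lemma norm_far : (far ℓ : FreeGroup ι).norm = ℓ + 2 := FreeGroup.norm_of_pow _ _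

/-- The relative position. -/
noncomputable def rel (h h' : H) : FreeGroup ι := by
  classical
  exact if ex : ∃ g : FreeGroup ι, g.norm ≤ ℓ + 1 ∧ h * ρ g = h' then ex.choose else far ℓ

lemma rel_mem (h h' : H) (hn : (rel ρ ℓ h h').norm ≤ ℓ + 1) : h * ρ (rel ρ ℓ h h') = h' := by
  unfold rel at hn ⊢
  by_cases ex : ∃ g : FreeGroup ι, g.norm ≤ ℓ + 1 ∧ h * ρ g = h'
  · rw [dif_pos ex]; exact ex.choose_spec.2
  · rw [dif_neg ex, norm_far] at hn; omega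

/-- Injectivity on the ball. -/
def InjBall : Prop := ∀ g : FreeGroup ι, g.norm ≤ 2 * ℓ + 2 → ρ g = 1 → g = 1

variable (hρ : InjBall ρ ℓ)

include hρ

lemma rel_spec (h h' : H) (g : FreeGroup ι) (hg : g.norm ≤ ℓ + 1) (e : h * ρ g = h') :
    rel ρ ℓ h h' = g := by
  have ex : ∃ g : FreeGroup ι, g.norm ≤ ℓ + 1 ∧ h * ρ g = h' := ⟨g, hg, e⟩
  unfold rel
  rw [dif_pos ex]
  obtain ⟨h1, h2⟩ := ex.choose_spec
  set g' := ex.choose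
  have h3 : ρ (g'⁻¹ * g) = 1 := by
    have : ρ g' = ρ g := by
      rw [← e] at h2
      exact mul_left_cancel h2
    rw [map_mul, map_inv, this, inv_mul_cancel]
  have h4 : (g'⁻¹ * g).norm ≤ 2 * ℓ + 2 := by
    have := FreeGroup.norm_mul_le g'⁻¹ g
    rw [FreeGroup.norm_inv_eq] at this
    omega
  have h5 := hρ _ h4 h3
  rw [inv_mul_eq_one] at h5
  exact h5

lemma rel_self (h : H) : rel ρ ℓ h h = 1 := by
  apply rel_spec ρ ℓ hρ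
  · simp
  · simp

lemma rel_step (h h' : H) (a : ι × Bool) (hn : (rel ρ ℓ h h').norm ≤ ℓ) :
    rel ρ ℓ (h * ρ (ltr a)) h' = (ltr a)⁻¹ * rel ρ ℓ h h' := by
  apply rel_spec ρ ℓ hρ
  · have := norm_inv_ltr_mul_le (rel ρ ℓ h h') a
    omega
  · rw [map_mul, map_inv]
    have := rel_mem ρ ℓ h h' (by omega)
    calc h * ρ (ltr a) * ((ρ (ltr a))⁻¹ * ρ (rel ρ ℓ h h')) = h * ρ (rel ρ ℓ h h') := by group
      _ = h' := this

lemma rel_stepx (h h' : H) (a : ι × Bool) (hn : (rel ρ ℓ h h').norm ≤ ℓ) :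
    rel ρ ℓ h (h' * ρ (ltr a)) = rel ρ ℓ h h' * ltr a := by
  apply rel_spec ρ ℓ hρ
  · have := norm_mul_ltr_le (rel ρ ℓ h h') a
    omega
  · rw [map_mul, ← mul_assoc, rel_mem ρ ℓ h h' (by omega)]

omit hρ in
/-- The truncated distance. -/
noncomputable def nu (h h' : H) : ℕ := min (rel ρ ℓ h h').norm ℓ

omit hρ in
lemma nu_le (h h' : H) : nu ρ ℓ h h' ≤ ℓ := min_le_right _ _

omit hρ in
lemma norm_of_nu (h h' : H) (hn : nu ρ ℓ h h' < ℓ) : (rel ρ ℓ h h').norm < ℓ := by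
  unfold nu at hn; omega

lemma nu_self (h : H) : nu ρ ℓ h h = 0 := by
  unfold nu; rw [rel_self ρ ℓ hρ]; simp

lemma nu_step (h h' : H) (a : ι × Bool) :
    nu ρ ℓ (h * ρ (ltr a)) h' ≤ nu ρ ℓ h h' + 1 := by
  by_cases hn : (rel ρ ℓ h h').norm ≤ ℓ
  · unfold nu
    rw [rel_step ρ ℓ hρ h h' a hn]
    have := norm_inv_ltr_mul_le (rel ρ ℓ h h') a
    omega
  · have : nu ρ ℓ h h' = ℓ := by unfold nu; omega
    have := nu_le ρ ℓ (h * ρ (ltr a)) h'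
    omega

lemma nu_step' (h h' : H) (a : ι × Bool) :
    nu ρ ℓ h h' ≤ nu ρ ℓ (h * ρ (ltr a)) h' + 1 := by
  have := nu_step ρ ℓ hρ (h * ρ (ltr a)) h' (linv a)
  rw [ltr_linv, map_inv, mul_assoc, mul_inv_cancel, mul_one] at this
  exact this

lemma nu_stepx (h h' : H) (a : ι × Bool) :
    nu ρ ℓ h (h' * ρ (ltr a)) ≤ nu ρ ℓ h h' + 1 := by
  by_cases hn : (rel ρ ℓ h h').norm ≤ ℓ
  · unfold nu
    rw [rel_stepx ρ ℓ hρ h h' a hn]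
    have := norm_mul_ltr_le (rel ρ ℓ h h') a
    omega
  · have : nu ρ ℓ h h' = ℓ := by unfold nu; omega
    have := nu_le ρ ℓ h (h' * ρ (ltr a))
    omega

lemma nu_stepx' (h h' : H) (a : ι × Bool) :
    nu ρ ℓ h h' ≤ nu ρ ℓ h (h' * ρ (ltr a)) + 1 := by
  have := nu_stepx ρ ℓ hρ h (h' * ρ (ltr a)) (linv a)
  rw [ltr_linv, map_inv, mul_assoc, mul_inv_cancel, mul_one] at this
  exact this

omit hρ in
/-- The step of the labelled graph `H × Y`. -/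
def gstep (s : H × Y) (d : Dir) : H × Y := (s.1 * ρ (ltr (S.lam s.2 d)), S.step s.2 d)

omit hρ [DecidableEq ι] [Nonempty ι] in
lemma gstep_op (s : H × Y) (d : Dir) : gstep S ρ (gstep S ρ s d) (op d) = s := by
  rcases s with ⟨h, y⟩
  simp only [gstep, S.step_op, S.lam_op, ltr_linv, map_inv]
  rw [mul_assoc, mul_inv_cancel, mul_one]

omit hρ in
/-- The target set of the pair. -/
noncomputable def Tg (s x : H × Y) : Set (FreeGroup ι) := S.T (rel ρ ℓ s.1 x.1) x.2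

omit hρ in
/-- The potential of the pair. -/
noncomputable def E (s x : H × Y) : ℝ := S.Phi s.2 (Tg S ρ ℓ s x)

omit hρ in
/-- The weight. -/
noncomputable def wt (s : H × Y) (d : Dir) (x : H × Y) : ℝ :=
  (ℓ : ℝ) - ((max (nu ρ ℓ s.1 x.1) (nu ρ ℓ (gstep S ρ s d).1 x.1) : ℕ) : ℝ)

omit hρ in
/-- The flow kernel. -/
noncomputable def jj (s : H × Y) (d : Dir) (x : H × Y) : ℝ :=
  wt S ρ ℓ s d x * (E S ρ ℓ (gstep S ρ s d) x - E S ρ ℓ s x)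

omit hρ in
/-- Good pairs. -/
def Good (s x : H × Y) : Prop := (S.Sc s.2 (Tg S ρ ℓ s x)).Finite

omit hρ in
/-- The divergence kernel. -/
noncomputable def DD (s x : H × Y) : ℝ := by
  classical
  exact if Good S ρ ℓ s x then ∑ d, jj S ρ ℓ s d x else (ℓ : ℝ) - (nu ρ ℓ s.1 x.1 : ℝ)

omit hρ in
lemma wt_nonneg (s : H × Y) (d : Dir) (x : H × Y) : 0 ≤ wt S ρ ℓ s d x := by
  unfold wt
  have h1 := nu_le ρ ℓ s.1 x.1
  have h2 := nu_le ρ ℓ (gstep S ρ s d).1 x.1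
  have : max (nu ρ ℓ s.1 x.1) (nu ρ ℓ (gstep S ρ s d).1 x.1) ≤ ℓ := max_le h1 h2
  have : ((max (nu ρ ℓ s.1 x.1) (nu ρ ℓ (gstep S ρ s d).1 x.1) : ℕ) : ℝ) ≤ ℓ := by
    exact_mod_cast this
  linarith

omit hρ in
lemma wt_le (s : H × Y) (d : Dir) (x : H × Y) : wt S ρ ℓ s d x ≤ ℓ := by
  unfold wt
  have : (0 : ℝ) ≤ ((max (nu ρ ℓ s.1 x.1) (nu ρ ℓ (gstep S ρ s d).1 x.1) : ℕ) : ℝ) := by
    positivity
  linarith

omit hρ in
lemma wt_zero (s : H × Y) (d : Dir) (x : H × Y)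
    (h : ¬ (nu ρ ℓ s.1 x.1 < ℓ ∧ nu ρ ℓ (gstep S ρ s d).1 x.1 < ℓ)) : wt S ρ ℓ s d x = 0 := by
  unfold wt
  have h1 := nu_le ρ ℓ s.1 x.1
  have h2 := nu_le ρ ℓ (gstep S ρ s d).1 x.1
  have : max (nu ρ ℓ s.1 x.1) (nu ρ ℓ (gstep S ρ s d).1 x.1) = ℓ := by omega
  rw [this]; ring

omit hρ in
lemma wt_diff (s : H × Y) (d : Dir) (x x' : H × Y)
    (h1 : nu ρ ℓ s.1 x.1 ≤ nu ρ ℓ s.1 x'.1 + 1) (h1' : nu ρ ℓ s.1 x'.1 ≤ nu ρ ℓ s.1 x.1 + 1)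
    (h2 : nu ρ ℓ (gstep S ρ s d).1 x.1 ≤ nu ρ ℓ (gstep S ρ s d).1 x'.1 + 1)
    (h2' : nu ρ ℓ (gstep S ρ s d).1 x'.1 ≤ nu ρ ℓ (gstep S ρ s d).1 x.1 + 1) :
    |wt S ρ ℓ s d x - wt S ρ ℓ s d x'| ≤ 1 := by
  unfold wt
  set a := max (nu ρ ℓ s.1 x.1) (nu ρ ℓ (gstep S ρ s d).1 x.1) with ha
  set b := max (nu ρ ℓ s.1 x'.1) (nu ρ ℓ (gstep S ρ s d).1 x'.1) with hb
  have h3 : a ≤ b + 1 := by omega
  have h4 : b ≤ a + 1 := by omega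
  have h3' : (a : ℝ) ≤ b + 1 := by exact_mod_cast h3
  have h4' : (b : ℝ) ≤ a + 1 := by exact_mod_cast h4
  rw [abs_le]
  constructor <;> linarith

lemma wt_near (s : H × Y) (d : Dir) (x : H × Y) :
    |wt S ρ ℓ s d x - ((ℓ : ℝ) - (nu ρ ℓ s.1 x.1 : ℝ))| ≤ 1 := by
  unfold wt
  have h1 := nu_step ρ ℓ hρ s.1 x.1 (S.lam s.2 d)
  have h2 : nu ρ ℓ (gstep S ρ s d).1 x.1 ≤ nu ρ ℓ s.1 x.1 + 1 := h1
  set a := max (nu ρ ℓ s.1 x.1) (nu ρ ℓ (gstep S ρ s d).1 x.1) with ha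
  have h3 : a ≤ nu ρ ℓ s.1 x.1 + 1 := by omega
  have h4 : nu ρ ℓ s.1 x.1 ≤ a := by omega
  have h3' : (a : ℝ) ≤ nu ρ ℓ s.1 x.1 + 1 := by exact_mod_cast h3
  have h4' : (nu ρ ℓ s.1 x.1 : ℝ) ≤ a := by exact_mod_cast h4
  rw [abs_le]
  constructor <;> linarith

lemma Tg_step (s : H × Y) (d : Dir) (x : H × Y) (hn : nu ρ ℓ s.1 x.1 < ℓ) :
    Tg S ρ ℓ (gstep S ρ s d) x = S.tr s.2 d (Tg S ρ ℓ s x) := by
  have hn' := norm_of_nu ρ ℓ s.1 x.1 hn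
  unfold Tg
  change S.T (rel ρ ℓ (s.1 * ρ (ltr (S.lam s.2 d))) x.1) x.2 = _
  rw [rel_step ρ ℓ hρ s.1 x.1 _ hn'.le, S.T_inv_step]
  rfl

lemma Tg_stepx (s : H × Y) (x : H × Y) (b : Dir) (hn : nu ρ ℓ s.1 x.1 < ℓ) :
    Tg S ρ ℓ s (gstep S ρ x b) = Tg S ρ ℓ s x := by
  have hn' := norm_of_nu ρ ℓ s.1 x.1 hn
  unfold Tg
  change S.T (rel ρ ℓ s.1 (x.1 * ρ (ltr (S.lam x.2 b)))) (S.step x.2 b) = _
  rw [rel_stepx ρ ℓ hρ s.1 x.1 _ hn'.le, S.T_step]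

lemma abs_E (s : H × Y) (d : Dir) (x : H × Y) (hn : nu ρ ℓ s.1 x.1 < ℓ) :
    |E S ρ ℓ (gstep S ρ s d) x - E S ρ ℓ s x| ≤ 1 / 2 := by
  unfold E
  rw [Tg_step S ρ ℓ hρ s d x hn]
  exact S.abs_Phi s.2 d _

lemma sum_E (s : H × Y) (x : H × Y) (hn : nu ρ ℓ s.1 x.1 < ℓ) (hg : Good S ρ ℓ s x) :
    ∑ d, (E S ρ ℓ (gstep S ρ s d) x - E S ρ ℓ s x) = 1 := by
  unfold E
  have : ∀ d, Tg S ρ ℓ (gstep S ρ s d) x = S.tr s.2 d (Tg S ρ ℓ s x) :=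
    fun d => Tg_step S ρ ℓ hρ s d x hn
  simp only [this]
  exact S.sum_Phi s.2 _ hg

omit hρ in
/-- (K1) -/
lemma jj_anti (s : H × Y) (d : Dir) (x : H × Y) :
    jj S ρ ℓ (gstep S ρ s d) (op d) x = - jj S ρ ℓ s d x := by
  have e : wt S ρ ℓ (gstep S ρ s d) (op d) x = wt S ρ ℓ s d x := by
    unfold wt
    rw [gstep_op, max_comm]
  unfold jj
  rw [e, gstep_op]
  ring

/-- (K2) -/
lemma jj_abs (s : H × Y) (d : Dir) (x : H × Y) : |jj S ρ ℓ s d x| ≤ ℓ := by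
  by_cases h : nu ρ ℓ s.1 x.1 < ℓ ∧ nu ρ ℓ (gstep S ρ s d).1 x.1 < ℓ
  · unfold jj
    rw [abs_mul, abs_of_nonneg (wt_nonneg S ρ ℓ s d x)]
    have h1 := wt_le S ρ ℓ s d x
    have h2 := abs_E S ρ ℓ hρ s d x h.1
    have h3 := wt_nonneg S ρ ℓ s d x
    nlinarith [abs_nonneg (E S ρ ℓ (gstep S ρ s d) x - E S ρ ℓ s x)]
  · unfold jj
    rw [wt_zero S ρ ℓ s d x h]; simp

lemma jj_lip_aux (s : H × Y) (d : Dir) (x : H × Y) (b : Dir)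
    (h : nu ρ ℓ s.1 x.1 < ℓ ∧ nu ρ ℓ (gstep S ρ s d).1 x.1 < ℓ) :
    |jj S ρ ℓ s d x - jj S ρ ℓ s d (gstep S ρ x b)| ≤ 1 := by
  have e1 : E S ρ ℓ s (gstep S ρ x b) = E S ρ ℓ s x := by
    unfold E; rw [Tg_stepx S ρ ℓ hρ s x b h.1]
  have e2 : E S ρ ℓ (gstep S ρ s d) (gstep S ρ x b) = E S ρ ℓ (gstep S ρ s d) x := by
    unfold E; rw [Tg_stepx S ρ ℓ hρ (gstep S ρ s d) x b h.2]
  unfold jj
  rw [e1, e2, ← sub_mul, abs_mul]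
  have h1 := wt_diff S ρ ℓ s d x (gstep S ρ x b) (nu_stepx' ρ ℓ hρ _ _ _)
    (nu_stepx ρ ℓ hρ _ _ _) (nu_stepx' ρ ℓ hρ _ _ _) (nu_stepx ρ ℓ hρ _ _ _)
  have h2 := abs_E S ρ ℓ hρ s d x h.1
  nlinarith [abs_nonneg (E S ρ ℓ (gstep S ρ s d) x - E S ρ ℓ s x),
    abs_nonneg (wt S ρ ℓ s d x - wt S ρ ℓ s d (gstep S ρ x b))]

/-- (K3) -/
lemma jj_lip (s : H × Y) (d : Dir) (x : H × Y) (b : Dir) :
    |jj S ρ ℓ s d x - jj S ρ ℓ s d (gstep S ρ x b)| ≤ 1 := by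
  by_cases h : nu ρ ℓ s.1 x.1 < ℓ ∧ nu ρ ℓ (gstep S ρ s d).1 x.1 < ℓ
  · exact jj_lip_aux S ρ ℓ hρ s d x b h
  · by_cases h' : nu ρ ℓ s.1 (gstep S ρ x b).1 < ℓ ∧
      nu ρ ℓ (gstep S ρ s d).1 (gstep S ρ x b).1 < ℓ
    · have := jj_lip_aux S ρ ℓ hρ s d (gstep S ρ x b) (op b) h'
      rw [gstep_op] at this
      rwa [abs_sub_comm]
    · have e1 : jj S ρ ℓ s d x = 0 := by
        unfold jj; rw [wt_zero S ρ ℓ s d x h, zero_mul]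
      have e2 : jj S ρ ℓ s d (gstep S ρ x b) = 0 := by
        unfold jj; rw [wt_zero S ρ ℓ s d _ h', zero_mul]
      rw [e1, e2]; norm_num

/-- `D` is near to `ℓ - ν`. -/
lemma DD_near (s x : H × Y) : |DD S ρ ℓ s x - ((ℓ : ℝ) - (nu ρ ℓ s.1 x.1 : ℝ))| ≤ 2 := by
  unfold DD
  by_cases hg : Good S ρ ℓ s x
  · rw [if_pos hg]
    by_cases hn : nu ρ ℓ s.1 x.1 < ℓ
    · have e : ∑ d, jj S ρ ℓ s d x - ((ℓ : ℝ) - (nu ρ ℓ s.1 x.1 : ℝ)) =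
          ∑ d, (wt S ρ ℓ s d x - ((ℓ : ℝ) - (nu ρ ℓ s.1 x.1 : ℝ))) *
            (E S ρ ℓ (gstep S ρ s d) x - E S ρ ℓ s x) := by
        simp only [sub_mul, Finset.sum_sub_distrib]
        have h1 := sum_E S ρ ℓ hρ s x hn hg
        rw [← Finset.mul_sum, ← Finset.mul_sum, h1]
        simp only [jj]
        ring
      rw [e]
      refine (Finset.abs_sum_le_sum_abs _ _).trans ?_
      have : ∀ d ∈ (Finset.univ : Finset Dir),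
          |(wt S ρ ℓ s d x - ((ℓ : ℝ) - (nu ρ ℓ s.1 x.1 : ℝ))) *
            (E S ρ ℓ (gstep S ρ s d) x - E S ρ ℓ s x)| ≤ 1 / 2 := by
        intro d _
        rw [abs_mul]
        have h1 := wt_near S ρ ℓ hρ s d x
        have h2 := abs_E S ρ ℓ hρ s d x hn
        nlinarith [abs_nonneg (E S ρ ℓ (gstep S ρ s d) x - E S ρ ℓ s x),
          abs_nonneg (wt S ρ ℓ s d x - ((ℓ : ℝ) - (nu ρ ℓ s.1 x.1 : ℝ)))]
      refine (Finset.sum_le_sum this).trans ?_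
      rw [Finset.sum_const, Finset.card_univ]
      simp
      norm_num
    · have e : ∑ d, jj S ρ ℓ s d x = 0 := by
        apply Finset.sum_eq_zero
        intro d _
        unfold jj
        rw [wt_zero S ρ ℓ s d x (fun h => hn h.1), zero_mul]
      have e2 : nu ρ ℓ s.1 x.1 = ℓ := by
        have := nu_le ρ ℓ s.1 x.1; omega
      rw [e, e2]; norm_num
  · rw [if_neg hg]; norm_num

omit hρ in
/-- The imbalance vanishes for good pairs and for far away pairs. -/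
lemma imb_zero (s x : H × Y) (h : Good S ρ ℓ s x ∨ ¬ nu ρ ℓ s.1 x.1 < ℓ) :
    ∑ d, jj S ρ ℓ s d x - DD S ρ ℓ s x = 0 := by
  by_cases hg : Good S ρ ℓ s x
  · unfold DD; rw [if_pos hg, sub_self]
  · have hn : ¬ nu ρ ℓ s.1 x.1 < ℓ := by tauto
    have e : ∑ d, jj S ρ ℓ s d x = 0 := by
      apply Finset.sum_eq_zero
      intro d _
      unfold jj
      rw [wt_zero S ρ ℓ s d x (fun h => hn h.1), zero_mul]
    have e2 : nu ρ ℓ s.1 x.1 = ℓ := by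
      have := nu_le ρ ℓ s.1 x.1; omega
    unfold DD
    rw [e, if_neg hg, e2]; norm_num

lemma imb_abs (s x : H × Y) :
    |∑ d, jj S ρ ℓ s d x - DD S ρ ℓ s x| ≤ 5 * ℓ + 2 := by
  have a1 : |∑ d, jj S ρ ℓ s d x| ≤ 4 * ℓ := by
    refine (Finset.abs_sum_le_sum_abs _ _).trans ?_
    refine (Finset.sum_le_sum (fun d _ => jj_abs S ρ ℓ hρ s d x)).trans ?_
    rw [Finset.sum_const, Finset.card_univ]
    simp
  have a2 := DD_near S ρ ℓ hρ s x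
  have a3 := nu_le ρ ℓ s.1 x.1
  have a3' : (nu ρ ℓ s.1 x.1 : ℝ) ≤ ℓ := by exact_mod_cast a3
  have a4 : (0 : ℝ) ≤ nu ρ ℓ s.1 x.1 := by positivity
  have a5 := abs_le.mp a1
  have a6 := abs_le.mp a2
  rw [abs_le]
  constructor <;> linarith [a5.1, a5.2, a6.1, a6.2]

end kernel

end Pool.Agent.H45.KA
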