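import Pool.Agent.H45.KA.Tree

set_option autoImplicit false
open Filter Topology

namespace Pool.Agent.H45.KA

/-- The potential. -/
noncomputable def pot (t : ℕ) : ℝ := (t : ℝ) / 2 + 3 / 8 * (1 / 3) ^ t

lemma pot_step (t : ℕ) : |pot (t + 1) - pot t| ≤ 1 / 2 := by
  have e : pot (t + 1) - pot t = 1 / 2 - 1 / 4 * (1 / 3) ^ t := by
    unfold pot; push_cast; rw [pow_succ]; ring
  have h1 : (0 : ℝ) < (1 / 3) ^ t := by positivity
  have h2 : ((1 : ℝ) / 3) ^ t ≤ 1 := pow_le_one₀ (by norm_num) (by norm_num)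
  rw [e, abs_le]
  constructor <;> linarith

lemma pot_near (a b : ℕ) (h1 : a ≤ b + 1) (h2 : b ≤ a + 1) : |pot a - pot b| ≤ 1 / 2 := by
  have : a = b ∨ a = b + 1 ∨ b = a + 1 := by omega
  rcases this with rfl | rfl | rfl
  · simp
  · exact pot_step b
  · rw [abs_sub_comm]; exact pot_step a

lemma pot_zero : 4 * pot 1 = 4 * pot 0 + 1 := by
  unfold pot; norm_num

lemma pot_succ (t : ℕ) : pot t + 3 * pot (t + 2) = 4 * pot (t + 1) + 1 := by
  unfold pot; push_cast; rw [pow_add, pow_add]; ring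

namespace Sys

variable {ι Y : Type} [DecidableEq ι] (S : Sys ι Y)

lemma sum_pot (y : Y) (c : FreeGroup ι) (hc : c ∈ S.Z y) :
    ∑ d, pot ((ltr (S.lam y d))⁻¹ * c).norm = 4 * pot c.norm + 1 := by
  obtain ⟨l, hl, rfl⟩ := S.exists_NB y c hc
  cases l with
  | nil =>
    have e : ∀ d, ((ltr (S.lam y d))⁻¹ * S.ev y []).norm = 1 := by
      intro d
      rw [ev_nil, mul_one, FreeGroup.norm_inv_eq, norm_ltr]
    simp only [e]
    rw [Finset.sum_const, Finset.card_univ, ev_nil, FreeGroup.norm_one, ← pot_zero]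
    simp
  | cons d₁ l =>
    have e : ∀ d, pot ((ltr (S.lam y d))⁻¹ * S.ev y (d₁ :: l)).norm =
        pot (l.length + 2) + (if d = d₁ then pot l.length - pot (l.length + 2) else 0) := by
      intro d
      by_cases h : d = d₁
      · subst h
        have e1 : (ltr (S.lam y d))⁻¹ * S.ev y (d :: l) = S.ev (S.step y d) l := by
          rw [ev_cons]; group
        have hl' : NB l := by unfold NB at hl ⊢; exact hl.tail
        rw [e1, S.norm_ev _ _ hl']
        simp
      · have e1 : (ltr (S.lam y d))⁻¹ * S.ev y (d₁ :: l) =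
            S.ev (S.step y d) (op d :: d₁ :: l) := by
          rw [ev_cons S (S.step y d) (op d), S.step_op, S.lam_op, ltr_linv]
        have hl' : NB (op d :: d₁ :: l) := by
          unfold NB at hl ⊢
          rw [List.isChain_cons_cons]
          refine ⟨?_, hl⟩
          rw [op_op]; exact fun h' => h h'.symm
        rw [e1, S.norm_ev _ _ hl']
        simp [h]
    simp only [e]
    rw [Finset.sum_add_distrib, Finset.sum_const, Finset.card_univ, Finset.sum_ite_eq',
      S.norm_ev _ _ hl, List.length_cons, ← pot_succ]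
    simp
    ring

/-- The average potential. -/
noncomputable def Phi (y : Y) (T : Set (FreeGroup ι)) : ℝ := by
  classical
  exact if h : (S.Sc y T).Finite then (∑ c ∈ h.toFinset, pot c.norm) / (h.toFinset.card : ℝ)
    else 0

lemma Phi_fin (y : Y) (T : Set (FreeGroup ι)) (h : (S.Sc y T).Finite) :
    S.Phi y T = (∑ c ∈ h.toFinset, pot c.norm) / (h.toFinset.card : ℝ) := by
  unfold Phi; rw [dif_pos h]

lemma Phi_inf (y : Y) (T : Set (FreeGroup ι)) (h : ¬ (S.Sc y T).Finite) :
    S.Phi y T = 0 := by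
  unfold Phi; rw [dif_neg h]

/-- The translate of `T` seen from the neighbour. -/
def tr (y : Y) (d : Dir) (T : Set (FreeGroup ι)) : Set (FreeGroup ι) :=
  {t | ltr (S.lam y d) * t ∈ T}

lemma Sc_tr (y : Y) (d : Dir) (T : Set (FreeGroup ι)) :
    S.Sc (S.step y d) (S.tr y d T) =
      (fun c => (ltr (S.lam y d))⁻¹ * c) '' (S.Sc y T) := by
  have := S.Sc_step y d T
  rw [tr, this]
  ext c
  simp only [Set.mem_ofPred_eq, Set.mem_image]
  constructor
  · intro h
    exact ⟨_, h, by group⟩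
  · rintro ⟨c', hc', rfl⟩
    simpa using hc'

lemma fin_tr (y : Y) (d : Dir) (T : Set (FreeGroup ι)) :
    (S.Sc (S.step y d) (S.tr y d T)).Finite ↔ (S.Sc y T).Finite := by
  rw [Sc_tr]
  exact Set.finite_image_iff (mul_right_injective _).injOn

lemma Phi_tr (y : Y) (d : Dir) (T : Set (FreeGroup ι)) (h : (S.Sc y T).Finite) :
    S.Phi (S.step y d) (S.tr y d T) =
      (∑ c ∈ h.toFinset, pot ((ltr (S.lam y d))⁻¹ * c).norm) / (h.toFinset.card : ℝ) := by
  classical
  have h' := (S.fin_tr y d T).mpr h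
  have e : h'.toFinset = h.toFinset.image (fun c => (ltr (S.lam y d))⁻¹ * c) := by
    ext c
    rw [Set.Finite.mem_toFinset, Sc_tr]
    simp
  rw [S.Phi_fin _ _ h', e, Finset.sum_image (fun a _ b _ hab => mul_right_injective _ hab),
    Finset.card_image_of_injective _ (mul_right_injective _)]

lemma card_pos (y : Y) (T : Set (FreeGroup ι)) (h : (S.Sc y T).Finite) :
    (0 : ℝ) < (h.toFinset.card : ℝ) := by
  have : h.toFinset.Nonempty := by
    obtain ⟨c, hc⟩ := S.Sc_nonempty y T
    exact ⟨c, by simpa using hc⟩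
  exact_mod_cast this.card_pos

/-- The flow has divergence `1`. -/
lemma sum_Phi (y : Y) (T : Set (FreeGroup ι)) (h : (S.Sc y T).Finite) :
    ∑ d, (S.Phi (S.step y d) (S.tr y d T) - S.Phi y T) = 1 := by
  have hp := S.card_pos y T h
  have e : ∀ d, S.Phi (S.step y d) (S.tr y d T) - S.Phi y T =
      (∑ c ∈ h.toFinset, (pot ((ltr (S.lam y d))⁻¹ * c).norm - pot c.norm)) /
        (h.toFinset.card : ℝ) := by
    intro d
    rw [S.Phi_tr y d T h, S.Phi_fin y T h, ← sub_div, ← Finset.sum_sub_distrib]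
  simp only [e]
  rw [← Finset.sum_div, Finset.sum_comm]
  have e2 : ∀ c ∈ h.toFinset, ∑ d, (pot ((ltr (S.lam y d))⁻¹ * c).norm - pot c.norm) = 1 := by
    intro c hc
    have hc' : c ∈ S.Sc y T := by simpa using hc
    rw [Finset.sum_sub_distrib, S.sum_pot y c hc'.1, Finset.sum_const, Finset.card_univ]
    simp
  rw [Finset.sum_congr rfl e2, Finset.sum_const, nsmul_eq_mul, mul_one, div_self hp.ne']

lemma abs_Phi (y : Y) (d : Dir) (T : Set (FreeGroup ι)) :
    |S.Phi (S.step y d) (S.tr y d T) - S.Phi y T| ≤ 1 / 2 := by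
  by_cases h : (S.Sc y T).Finite
  · have hp := S.card_pos y T h
    rw [S.Phi_tr y d T h, S.Phi_fin y T h, ← sub_div, ← Finset.sum_sub_distrib, abs_div,
      abs_of_pos hp, div_le_iff₀ hp]
    refine (Finset.abs_sum_le_sum_abs _ _).trans ?_
    have : ∀ c ∈ h.toFinset, |pot ((ltr (S.lam y d))⁻¹ * c).norm - pot c.norm| ≤ 1 / 2 := by
      intro c _
      apply pot_near
      · exact norm_inv_ltr_mul_le c _
      · have := norm_ltr_mul_le ((ltr (S.lam y d))⁻¹ * c) (S.lam y d)
        rwa [mul_inv_cancel_left] at this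
    refine (Finset.sum_le_sum this).trans ?_
    rw [Finset.sum_const, nsmul_eq_mul, mul_comm]
  · have h' : ¬ (S.Sc (S.step y d) (S.tr y d T)).Finite := fun hh => h ((S.fin_tr y d T).mp hh)
    rw [S.Phi_inf _ _ h, S.Phi_inf _ _ h']
    norm_num

end Sys

end Pool.Agent.H45.KA
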