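import Mathlib

set_option autoImplicit false
open Filter Topology

namespace Pool.Agent.H45.KA

section quot

variable (ι : Type) [DecidableEq ι] (N : ℕ)

/-- The ball of radius `N` in the free group. -/
abbrev Ball := {g : FreeGroup ι // g.norm ≤ N}

instance ball_finite [Finite ι] : Finite (Ball ι N) := by
  have h : Finite {l : List (ι × Bool) // l.length ≤ N} :=
    (List.finite_length_le (ι × Bool) N).to_subtype
  refine Finite.of_injective
    (fun g : Ball ι N => (⟨g.1.toWord, g.2⟩ : {l : List (ι × Bool) // l.length ≤ N})) ?_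
  intro g g' hg
  apply Subtype.ext
  apply FreeGroup.toWord_injective
  simpa using hg

variable {ι N}

/-- The partial translation on the ball. -/
def ballEquiv (i : ι) :
    {g : Ball ι N // (FreeGroup.of i * g.1).norm ≤ N} ≃
    {g : Ball ι N // ((FreeGroup.of i)⁻¹ * g.1).norm ≤ N} where
  toFun g := ⟨⟨FreeGroup.of i * g.1.1, g.2⟩, by simpa using g.1.2⟩
  invFun g := ⟨⟨(FreeGroup.of i)⁻¹ * g.1.1, g.2⟩, by simpa using g.1.2⟩
  left_inv g := by apply Subtype.ext; apply Subtype.ext; simp
  right_inv g := by apply Subtype.ext; apply Subtype.ext; simp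

variable [Finite ι]

/-- The permutation attached to a generator. -/
noncomputable def gperm (i : ι) : Equiv.Perm (Ball ι N) := (ballEquiv i).extendSubtype

lemma gperm_apply (i : ι) (g : Ball ι N) (h : (FreeGroup.of i * g.1).norm ≤ N) :
    gperm i g = ⟨FreeGroup.of i * g.1, h⟩ := by
  unfold gperm
  have := Equiv.extendSubtype_apply_of_mem (ballEquiv i) g h
  rw [this]
  rfl

lemma gperm_inv_apply (i : ι) (g : Ball ι N) (h : ((FreeGroup.of i)⁻¹ * g.1).norm ≤ N) :
    (gperm i)⁻¹ g = ⟨(FreeGroup.of i)⁻¹ * g.1, h⟩ := by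
  rw [Equiv.Perm.inv_eq_iff_eq]
  rw [gperm_apply i _ (by simpa using g.2)]
  apply Subtype.ext
  simp

/-- The homomorphism to a finite group. -/
noncomputable def rho (ι : Type) [DecidableEq ι] [Finite ι] (N : ℕ) :
    FreeGroup ι →* Equiv.Perm (Ball ι N) :=
  FreeGroup.lift (fun i => gperm i)

lemma rho_word (L : List (ι × Bool)) (hL : L.length ≤ N) :
    (rho ι N (FreeGroup.mk L) (⟨1, by simp⟩ : Ball ι N)).1 = FreeGroup.mk L := by
  induction L with
  | nil =>
    have e : (FreeGroup.mk [] : FreeGroup ι) = 1 := rfl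
    rw [e, map_one]
    rfl
  | cons a L ih =>
    have hL' : L.length ≤ N := by simp at hL; omega
    have ih' := ih hL'
    have e : (FreeGroup.mk (a :: L) : FreeGroup ι) = FreeGroup.mk [a] * FreeGroup.mk L := by
      rw [FreeGroup.mul_mk]; rfl
    have hn : (FreeGroup.mk [a] * FreeGroup.mk L : FreeGroup ι).norm ≤ N := by
      rw [← e]; exact FreeGroup.norm_mk_le.trans hL
    set x : Ball ι N := rho ι N (FreeGroup.mk L) (⟨1, by simp⟩ : Ball ι N) with hx
    have e2 : rho ι N (FreeGroup.mk (a :: L)) ⟨1, by simp⟩ =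
        rho ι N (FreeGroup.mk [a]) x := by
      rw [e, map_mul, Equiv.Perm.mul_apply]
    have hn2 : (FreeGroup.mk [a] * x.1).norm ≤ N := by rw [ih']; exact hn
    rw [e2, e, ← ih']
    rcases a with ⟨i, b⟩
    cases b with
    | true =>
      have e3 : rho ι N (FreeGroup.mk [(i, true)]) = gperm i := by
        change rho ι N (FreeGroup.of i) = _
        rw [rho, FreeGroup.lift_apply_of]
      rw [e3, gperm_apply i x hn2]
      rfl
    | false =>
      have e4 : (FreeGroup.mk [(i, false)] : FreeGroup ι) = (FreeGroup.of i)⁻¹ := rfl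
      have e3 : rho ι N (FreeGroup.mk [(i, false)]) = (gperm i)⁻¹ := by
        rw [e4, map_inv, rho, FreeGroup.lift_apply_of]
      rw [e3, gperm_inv_apply i x (by rw [← e4]; exact hn2)]
      rfl

theorem rho_inj (g : FreeGroup ι) (hg : g.norm ≤ N) (h : rho ι N g = 1) : g = 1 := by
  have h1 := rho_word (N := N) g.toWord hg
  have e : FreeGroup.mk g.toWord = g := FreeGroup.mk_toWord
  rw [e, h] at h1
  exact h1.symm

end quot

end Pool.Agent.H45.KA
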