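import Pool.Agent.H45.KA.Kernel
import Pool.Agent.H45.KA.Quot

set_option autoImplicit false
open Filter Topology

namespace Pool.Agent.H45.KA

/-- The index set of the free generators. -/
abbrev Io := Fin 2 × Fin 8 × Fin 8

/-- The finite groups. -/
abbrev Pg (r : ℕ) := Equiv.Perm (Ball (Fin 2) r)

/-- The states of the layer `r`. -/
abbrev Yr (r : ℕ) := Pg r × (Pg r → Fin 8)

/-- All states. -/
abbrev YY := Σ r, Yr r

/-- The translation by a direction. -/
noncomputable def tg (r : ℕ) (d : Dir) : Pg r := rho (Fin 2) r (ltr d)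

lemma tg_op (r : ℕ) (d : Dir) : tg r d * tg r (op d) = 1 := by
  unfold tg
  have : (ltr (op d) : FreeGroup (Fin 2)) = (ltr d)⁻¹ := ltr_linv d
  rw [this, map_inv, mul_inv_cancel]

/-- The labelled system of the layer `r`. -/
noncomputable def lamr (r : ℕ) (y : Yr r) (d : Dir) : Io × Bool :=
  if d.2 then ((d.1, y.2 y.1, y.2 (y.1 * tg r d)), true)
  else ((d.1, y.2 (y.1 * tg r d), y.2 y.1), false)

/-- The labelled system. -/
noncomputable def SY : Sys Io YY where
  step y d := ⟨y.1, (y.2.1 * tg y.1 d, y.2.2)⟩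
  lam y d := lamr y.1 y.2 d
  step_op y d := by
    rcases y with ⟨r, p, β⟩
    simp only [mul_assoc, tg_op, mul_one]
  lam_op y d := by
    rcases y with ⟨r, p, β⟩
    rcases d with ⟨i, b⟩
    have h := tg_op r (i, b)
    cases b <;> simp_all [lamr, op, linv, mul_assoc]
  lam_inj y := by
    rcases y with ⟨r, p, β⟩
    intro d d' h
    rcases d with ⟨i, b⟩
    rcases d' with ⟨i', b'⟩
    cases b <;> cases b' <;> simp_all [lamr]

/-- The direction of a letter. -/
def proj (a : Io × Bool) : Dir := (a.1.1, a.2)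

lemma proj_lam (y : YY) (d : Dir) : proj (SY.lam y d) = d := by
  rcases y with ⟨r, p, β⟩
  rcases d with ⟨i, b⟩
  cases b <;> simp [SY, lamr, proj]

lemma map_proj_word (y : YY) (l : List Dir) : (SY.word y l).map proj = l := by
  induction l generalizing y with
  | nil => rfl
  | cons d l ih =>
    simp only [Sys.word, List.map_cons, proj_lam, ih]

/-- The positions along the path. -/
noncomputable def pos (r : ℕ) (l : List Dir) (p : Pg r) (j : ℕ) : Pg r :=
  p * rho (Fin 2) r (FreeGroup.mk (l.take j))

lemma pos_cons (r : ℕ) (d : Dir) (l : List Dir) (p : Pg r) (j : ℕ) :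
    pos r (d :: l) p (j + 1) = pos r l (p * tg r d) j := by
  unfold pos
  rw [List.take_succ_cons]
  have : (FreeGroup.mk (d :: l.take j) : FreeGroup (Fin 2)) =
      ltr d * FreeGroup.mk (l.take j) := by
    rw [ltr, FreeGroup.mul_mk]; rfl
  rw [this, map_mul, ← mul_assoc]
  rfl

lemma lamr_eq (r : ℕ) (p : Pg r) (β β' : Pg r → Fin 8) (d : Dir)
    (h : lamr r (p, β) d = lamr r (p, β') d) : β p = β' p := by
  rcases d with ⟨i, b⟩
  cases b <;> simp [lamr] at h <;> tauto

lemma agree (r : ℕ) (l : List Dir) (p : Pg r) (β β' : Pg r → Fin 8)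
    (h : SY.word ⟨r, (p, β)⟩ l = SY.word ⟨r, (p, β')⟩ l) (j : ℕ) (hj : j < l.length) :
    β (pos r l p j) = β' (pos r l p j) := by
  induction l generalizing p j with
  | nil => simp at hj
  | cons d l ih =>
    change SY.lam ⟨r, (p, β)⟩ d :: SY.word ⟨r, (p * tg r d, β)⟩ l =
      SY.lam ⟨r, (p, β')⟩ d :: SY.word ⟨r, (p * tg r d, β')⟩ l at h
    rw [List.cons.injEq] at h
    cases j with
    | zero =>
      have e : pos r (d :: l) p 0 = p := by
        unfold pos
        have : (FreeGroup.mk (List.take 0 (d :: l)) : FreeGroup (Fin 2)) = 1 := rfl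
        rw [this, map_one, mul_one]
      rw [e]
      exact lamr_eq r p β β' d h.1
    | succ j =>
      rw [pos_cons]
      apply ih _ h.2
      simpa using hj

lemma NB_reduced (l : List Dir) (h : Sys.NB l) : FreeGroup.IsReduced l := by
  unfold Sys.NB at h
  unfold FreeGroup.IsReduced
  refine h.imp ?_
  intro a b hab e
  by_contra h2
  apply hab
  unfold op
  apply Prod.ext
  · exact e.symm
  · simp only
    revert h2
    cases a.2 <;> cases b.2 <;> simp

lemma pos_inj (r : ℕ) (l : List Dir) (hl : Sys.NB l) (hr : l.length = r) (p : Pg r) (i j : ℕ)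
    (hi : i ≤ j) (hj : j < r) (h : pos r l p i = pos r l p j) : i = j := by
  unfold pos at h
  have h1 := mul_left_cancel h
  have e1 : l.take j = l.take i ++ (l.take j).drop i := by
    have : l.take i = (l.take j).take i := by
      rw [List.take_take]; congr 1; omega
    rw [this, List.take_append_drop]
  have e2 : (FreeGroup.mk (l.take j) : FreeGroup (Fin 2)) =
      FreeGroup.mk (l.take i) * FreeGroup.mk ((l.take j).drop i) := by
    rw [FreeGroup.mul_mk, ← e1]
  rw [e2, map_mul] at h1
  have h2 : rho (Fin 2) r (FreeGroup.mk ((l.take j).drop i)) = 1 := by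
    have := h1.symm
    rwa [mul_eq_left] at this
  have hred : FreeGroup.IsReduced ((l.take j).drop i) := by
    have h0 := NB_reduced l hl
    unfold FreeGroup.IsReduced at h0 ⊢
    exact (h0.take j).drop i
  have hlen : ((l.take j).drop i).length = j - i := by
    rw [List.length_drop, List.length_take]; omega
  have hn : (FreeGroup.mk ((l.take j).drop i) : FreeGroup (Fin 2)).norm = j - i := by
    rw [FreeGroup.norm, toWord_of_reduced hred, hlen]
  have h3 := rho_inj (N := r) _ (by rw [hn]; omega) h2
  rw [h3, FreeGroup.norm_one] at hn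
  omega

noncomputable instance (ι : Type) [DecidableEq ι] [Finite ι] (N : ℕ) : Fintype (Ball ι N) :=
  Fintype.ofFinite _

noncomputable instance fyr (r : ℕ) : Fintype (Yr r) := inferInstance

open Classical in
/-- The states from which `u` can be read. -/
noncomputable def Rd (r : ℕ) (u : FreeGroup Io) : Finset (Yr r) :=
  Finset.univ.filter (fun y => u ∈ SY.Z ⟨r, y⟩)

lemma mem_Rd (r : ℕ) (u : FreeGroup Io) (y : Yr r) : y ∈ Rd r u ↔ u ∈ SY.Z ⟨r, y⟩ := by
  simp [Rd]

/-- The readability estimate. -/
theorem card_Rd (r : ℕ) (u : FreeGroup Io) (hu : u.norm = r) :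
    (Rd r u).card * 8 ^ r ≤ Fintype.card (Yr r) := by
  classical
  set l : List Dir := u.toWord.map proj with hl
  have key : ∀ y ∈ Rd r u, Sys.NB l ∧ SY.word ⟨r, y⟩ l = u.toWord := by
    intro y hy
    rw [mem_Rd] at hy
    obtain ⟨l', h1, h2⟩ := SY.exists_NB _ _ hy
    have h3 := SY.toWord_ev ⟨r, y⟩ l' h1
    rw [h2] at h3
    have h4 : l = l' := by
      rw [hl, h3, map_proj_word]
    rw [h4]
    exact ⟨h1, h3.symm⟩
  have hlen : l.length = r := by
    rw [hl, List.length_map]; exact hu
  let e : Pg r → Fin r → Pg r := fun p j => pos r l p j.1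
  let f : Yr r × (Fin r → Fin 8) → Yr r :=
    fun z => (z.1.1, Function.extend (e z.1.1) z.2 z.1.2)
  have hinj : Set.InjOn f ((Rd r u ×ˢ (Finset.univ : Finset (Fin r → Fin 8)) :
      Finset (Yr r × (Fin r → Fin 8))) : Set (Yr r × (Fin r → Fin 8))) := by
    rintro ⟨⟨p, β⟩, v⟩ h1 ⟨⟨p', β'⟩, v'⟩ h2 heq
    simp only [Finset.coe_product, Set.mem_prod, Finset.mem_coe, Finset.coe_univ,
      Set.mem_univ, and_true] at h1 h2
    simp only [f, Prod.mk.injEq] at heq
    obtain ⟨hp, hext⟩ := heq
    subst hp
    obtain ⟨hNB, hw1⟩ := key _ h1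
    obtain ⟨_, hw2⟩ := key _ h2
    have hei : Function.Injective (e p) := by
      intro i j hij
      apply Fin.ext
      rcases le_total i.1 j.1 with h | h
      · exact pos_inj r l hNB hlen p i j h j.2 hij
      · exact (pos_inj r l hNB hlen p j i h i.2 hij.symm).symm
    have hv : v = v' := by
      funext j
      have := congrFun hext (e p j)
      rw [hei.extend_apply, hei.extend_apply] at this
      exact this
    have hβ : β = β' := by
      funext x
      by_cases hx : ∃ j, e p j = x
      · obtain ⟨j, rfl⟩ := hx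
        exact agree r l p β β' (hw1.trans hw2.symm) j.1 (by rw [hlen]; exact j.2)
      · have := congrFun hext x
        rw [Function.extend_apply' _ _ _ hx, Function.extend_apply' _ _ _ hx] at this
        exact this
    rw [hv, hβ]
  have hcard := Finset.card_le_card_of_injOn f (t := (Finset.univ : Finset (Yr r)))
    (fun _ _ => Finset.mem_coe.mpr (Finset.mem_univ _)) hinj
  rw [Finset.card_product, Finset.card_univ, Finset.card_univ, Fintype.card_fun] at hcard
  simpa using hcard

end Pool.Agent.H45.KA
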