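import Pool.Agent.H45.KA.Core

set_option autoImplicit false
open Filter Topology

namespace Pool.Agent.H45.KA

section words

variable {ι : Type} [DecidableEq ι]

/-- The inverse letter. -/
def linv (a : ι × Bool) : ι × Bool := (a.1, !a.2)

/-- A letter as an element of the free group. -/
def ltr (a : ι × Bool) : FreeGroup ι := FreeGroup.mk [a]

omit [DecidableEq ι] in
lemma ltr_linv (a : ι × Bool) : ltr (linv a) = (ltr a)⁻¹ := rfl

lemma norm_ltr (a : ι × Bool) : (ltr a).norm = 1 := by
  rw [ltr, FreeGroup.norm, FreeGroup.toWord_mk, FreeGroup.reduce_singleton]; rfl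

lemma norm_mul_ltr_le (u : FreeGroup ι) (a : ι × Bool) : (u * ltr a).norm ≤ u.norm + 1 := by
  have := FreeGroup.norm_mul_le u (ltr a)
  rwa [norm_ltr] at this

lemma norm_ltr_mul_le (u : FreeGroup ι) (a : ι × Bool) : (ltr a * u).norm ≤ u.norm + 1 := by
  have := FreeGroup.norm_mul_le (ltr a) u
  rw [norm_ltr] at this; omega

lemma norm_inv_ltr_mul_le (u : FreeGroup ι) (a : ι × Bool) :
    ((ltr a)⁻¹ * u).norm ≤ u.norm + 1 := by
  rw [← ltr_linv]; exact norm_ltr_mul_le _ _

lemma toWord_of_reduced {L : List (ι × Bool)} (h : FreeGroup.IsReduced L) :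
    (FreeGroup.mk L).toWord = L := by
  rw [FreeGroup.toWord_mk, h.reduce_eq]

/-- Cancellation gives a common letter. -/
lemma exists_cancel (u v : FreeGroup ι)
    (h : ¬ FreeGroup.IsReduced (u.toWord ++ v.toWord)) :
    ∃ b : ι × Bool, (u * (ltr b)⁻¹).norm < u.norm ∧ (ltr b * v).norm < v.norm := by
  have hu : FreeGroup.IsReduced u.toWord := FreeGroup.isReduced_toWord
  have hv : FreeGroup.IsReduced v.toWord := FreeGroup.isReduced_toWord
  unfold FreeGroup.IsReduced at h hu hv
  rw [List.isChain_append] at h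
  have h' : ¬ (∀ x ∈ u.toWord.getLast?, ∀ y ∈ v.toWord.head?, x.1 = y.1 → x.2 = y.2) :=
    fun hh => h ⟨hu, hv, hh⟩
  push Not at h'
  obtain ⟨x, hx, y, hy, h1, h2⟩ := h'
  have eU : u.toWord.dropLast ++ [x] = u.toWord := List.dropLast_append_getLast? x hx
  have eV : v.toWord = y :: v.toWord.tail := List.eq_cons_of_mem_head? hy
  have ey : y = linv x := by
    apply Prod.ext
    · exact h1.symm
    · simp only [linv]
      revert h2
      cases x.2 <;> cases y.2 <;> simp
  refine ⟨x, ?_, ?_⟩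
  · have e1 : u * (ltr x)⁻¹ = FreeGroup.mk u.toWord.dropLast := by
      have : u = FreeGroup.mk u.toWord.dropLast * ltr x := by
        rw [ltr, FreeGroup.mul_mk, eU, FreeGroup.mk_toWord]
      rw [mul_inv_eq_iff_eq_mul]; exact this
    rw [e1]
    refine lt_of_le_of_lt FreeGroup.norm_mk_le ?_
    have := congrArg List.length eU
    simp only [List.length_append, List.length_singleton] at this
    unfold FreeGroup.norm
    omega
  · have e1 : ltr x * v = FreeGroup.mk v.toWord.tail := by
      have : v = (ltr x)⁻¹ * FreeGroup.mk v.toWord.tail := by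
        rw [← ltr_linv, ← ey, ltr, FreeGroup.mul_mk]
        change v = FreeGroup.mk (y :: v.toWord.tail)
        rw [← eV, FreeGroup.mk_toWord]
      rw [this]; simp
      rw [← this]
    rw [e1]
    refine lt_of_le_of_lt FreeGroup.norm_mk_le ?_
    have := congrArg List.length eV
    simp only [List.length_cons] at this
    unfold FreeGroup.norm
    omega

lemma norm_mul_of_reduced (u v : FreeGroup ι)
    (h : FreeGroup.IsReduced (u.toWord ++ v.toWord)) : (u * v).norm = u.norm + v.norm := by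
  rw [FreeGroup.norm, FreeGroup.toWord_mul, h.reduce_eq, List.length_append]; rfl

lemma exists_cancel' (u v : FreeGroup ι) (h : (u * v).norm < u.norm + v.norm) :
    ∃ b : ι × Bool, (u * (ltr b)⁻¹).norm < u.norm ∧ (ltr b * v).norm < v.norm := by
  apply exists_cancel
  intro hr
  have := norm_mul_of_reduced u v hr
  omega

lemma reduced_of_norm (u v : FreeGroup ι) (h : (u * v).norm = u.norm + v.norm) :
    FreeGroup.IsReduced (u.toWord ++ v.toWord) := by
  by_contra hr
  obtain ⟨b, h1, h2⟩ := exists_cancel u v hr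
  have e : u * v = (u * (ltr b)⁻¹) * (ltr b * v) := by group
  have := FreeGroup.norm_mul_le (u * (ltr b)⁻¹) (ltr b * v)
  rw [← e] at this
  omega

lemma norm_triple (u v w : FreeGroup ι) (h1 : (u * v).norm = u.norm + v.norm)
    (h2 : (v * w).norm = v.norm + w.norm) (hv : v ≠ 1) :
    (u * v * w).norm = u.norm + v.norm + w.norm := by
  have r1 := reduced_of_norm u v h1
  have r2 := reduced_of_norm v w h2
  have hv' : v.toWord ≠ [] := by
    intro h; exact hv (FreeGroup.toWord_eq_nil_iff.mp h)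
  have r3 := r1.append_overlap r2 hv'
  have e : (u * v).toWord = u.toWord ++ v.toWord := by
    rw [FreeGroup.toWord_mul, r1.reduce_eq]
  rw [← e] at r3
  rw [norm_mul_of_reduced _ _ r3, h1]

lemma ball_finite' [Finite ι] (n : ℕ) : {g : FreeGroup ι | g.norm ≤ n}.Finite := by
  have h := List.finite_length_le (ι × Bool) n
  refine Set.Finite.of_finite_image (f := FreeGroup.toWord) (h.subset ?_)
    (FreeGroup.toWord_injective.injOn)
  rintro _ ⟨g, hg, rfl⟩
  exact hg

end words

/-- A labelled `4`-regular system. -/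
structure Sys (ι Y : Type) where
  step : Y → Dir → Y
  lam : Y → Dir → ι × Bool
  step_op : ∀ y d, step (step y d) (op d) = y
  lam_op : ∀ y d, lam (step y d) (op d) = linv (lam y d)
  lam_inj : ∀ y, Function.Injective (lam y)

namespace Sys

variable {ι Y : Type} [DecidableEq ι] (S : Sys ι Y)

/-- The word read along a path. -/
def word : Y → List Dir → List (ι × Bool)
  | _, [] => []
  | y, d :: l => S.lam y d :: word (S.step y d) l

/-- The group element read along a path. -/
def ev (y : Y) (l : List Dir) : FreeGroup ι := FreeGroup.mk (S.word y l)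

/-- Non-backtracking paths. -/
def NB (l : List Dir) : Prop := l.IsChain (fun d d' => d' ≠ op d)

omit [DecidableEq ι] in
@[simp] lemma ev_nil (y : Y) : S.ev y [] = 1 := rfl

omit [DecidableEq ι] in
lemma ev_cons (y : Y) (d : Dir) (l : List Dir) :
    S.ev y (d :: l) = ltr (S.lam y d) * S.ev (S.step y d) l := by
  rw [ev, ev, ltr, FreeGroup.mul_mk]; rfl

omit [DecidableEq ι] in
lemma length_word (y : Y) (l : List Dir) : (S.word y l).length = l.length := by
  induction l generalizing y with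
  | nil => rfl
  | cons d l ih => simp [word, ih]

omit [DecidableEq ι] in
lemma reduced_word (y : Y) (l : List Dir) (h : NB l) : FreeGroup.IsReduced (S.word y l) := by
  induction l generalizing y with
  | nil => exact FreeGroup.IsReduced.nil
  | cons d l ih =>
    cases l with
    | nil => exact FreeGroup.IsReduced.singleton
    | cons d' l =>
      unfold NB at h
      rw [List.isChain_cons_cons] at h
      have h2 := ih (S.step y d) h.2
      change FreeGroup.IsReduced (S.lam y d :: S.lam (S.step y d) d' :: _)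
      rw [FreeGroup.isReduced_cons_cons]
      refine ⟨?_, h2⟩
      intro e1
      by_contra e2
      apply h.1
      apply S.lam_inj (S.step y d)
      rw [S.lam_op]
      apply Prod.ext
      · exact e1.symm
      · simp only [linv]
        revert e2
        cases (S.lam y d).2 <;> cases (S.lam (S.step y d) d').2 <;> simp

lemma toWord_ev (y : Y) (l : List Dir) (h : NB l) : (S.ev y l).toWord = S.word y l :=
  toWord_of_reduced (S.reduced_word y l h)

lemma norm_ev (y : Y) (l : List Dir) (h : NB l) : (S.ev y l).norm = l.length := by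
  rw [FreeGroup.norm, S.toWord_ev y l h, length_word]

/-- The subtree of a state. -/
def Z (y : Y) : Set (FreeGroup ι) := Set.range (S.ev y)

omit [DecidableEq ι] in
lemma one_mem_Z (y : Y) : (1 : FreeGroup ι) ∈ S.Z y := ⟨[], rfl⟩

omit [DecidableEq ι] in
lemma mem_Z_step (y : Y) (d : Dir) (c : FreeGroup ι) :
    c ∈ S.Z (S.step y d) ↔ ltr (S.lam y d) * c ∈ S.Z y := by
  constructor
  · rintro ⟨l, rfl⟩
    exact ⟨d :: l, S.ev_cons y d l⟩
  · rintro ⟨l, hl⟩
    refine ⟨op d :: l, ?_⟩
    rw [ev_cons, S.step_op, hl, S.lam_op, ltr_linv]; group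

omit [DecidableEq ι] in
lemma exists_NB (y : Y) (c : FreeGroup ι) (hc : c ∈ S.Z y) : ∃ l, NB l ∧ S.ev y l = c := by
  obtain ⟨l, rfl⟩ := hc
  induction l generalizing y with
  | nil => exact ⟨[], List.isChain_nil, rfl⟩
  | cons d l ih =>
    obtain ⟨l', h1, h2⟩ := ih (S.step y d)
    rw [ev_cons, ← h2]
    cases l' with
    | nil => exact ⟨[d], List.isChain_singleton d, by rw [ev_cons]⟩
    | cons d' l' =>
      by_cases hd : d' = op d
      · subst hd
        refine ⟨l', ?_, ?_⟩
        · unfold NB at h1 ⊢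
          exact h1.tail
        · rw [ev_cons, S.step_op, S.lam_op, ltr_linv]; group
      · refine ⟨d :: d' :: l', ?_, ?_⟩
        · unfold NB at h1 ⊢
          rw [List.isChain_cons_cons]; exact ⟨hd, h1⟩
        · rw [ev_cons]

omit [DecidableEq ι] in
lemma word_concat (y : Y) (l : List Dir) (d : Dir) :
    ∃ a, S.word y (l ++ [d]) = S.word y l ++ [a] := by
  induction l generalizing y with
  | nil => exact ⟨S.lam y d, rfl⟩
  | cons e l ih =>
    obtain ⟨a, ha⟩ := ih (S.step y e)
    refine ⟨a, ?_⟩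
    change S.lam y e :: S.word (S.step y e) (l ++ [d]) = S.lam y e :: S.word (S.step y e) l ++ [a]
    rw [ha]; rfl

/-- Convexity: the last letter of an element of the subtree can be removed. -/
lemma Z_parent (y : Y) (c : FreeGroup ι) (hc : c ∈ S.Z y) (b : ι × Bool)
    (h : (c * (ltr b)⁻¹).norm < c.norm) : c * (ltr b)⁻¹ ∈ S.Z y := by
  obtain ⟨l, hl, rfl⟩ := S.exists_NB y c hc
  rcases List.eq_nil_or_concat l with rfl | ⟨l₀, d, rfl⟩
  · exfalso
    simp at h
  · rw [List.concat_eq_append] at hl h ⊢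
    obtain ⟨a, ha⟩ := S.word_concat y l₀ d
    have hw := S.toWord_ev y _ hl
    rw [ha] at hw
    have hev : S.ev y (l₀ ++ [d]) = S.ev y l₀ * ltr a := by
      rw [ev, ev, ltr, FreeGroup.mul_mk, ha]
    by_cases hab : a = b
    · subst hab
      rw [hev]
      refine ⟨l₀, ?_⟩
      group
    · exfalso
      have hr : FreeGroup.IsReduced ((S.ev y (l₀ ++ [d])).toWord ++ (ltr (linv b)).toWord) := by
        have e1 : (ltr (linv b) : FreeGroup ι).toWord = [linv b] :=
          toWord_of_reduced FreeGroup.IsReduced.singleton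
        rw [e1, hw]
        have hr0 : FreeGroup.IsReduced (S.word y l₀ ++ [a]) := by
          rw [← hw]; exact FreeGroup.isReduced_toWord
        have hr1 : FreeGroup.IsReduced ([a] ++ [linv b]) := by
          change FreeGroup.IsReduced [a, linv b]
          rw [FreeGroup.isReduced_cons_cons]
          refine ⟨?_, FreeGroup.IsReduced.singleton⟩
          intro e
          by_contra e2
          apply hab
          apply Prod.ext
          · exact e
          · simp only [linv] at e2
            revert e2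
            cases a.2 <;> cases b.2 <;> simp
        exact hr0.append_overlap hr1 (by simp)
      have := norm_mul_of_reduced _ _ hr
      rw [ltr_linv] at this
      omega

/-- The translated subtree `g • Z(y)`. -/
def T (g : FreeGroup ι) (y : Y) : Set (FreeGroup ι) := {t | g⁻¹ * t ∈ S.Z y}

omit [DecidableEq ι] in
lemma T_nonempty (g : FreeGroup ι) (y : Y) : (S.T g y).Nonempty :=
  ⟨g, by simp [T, one_mem_Z]⟩

omit [DecidableEq ι] in
/-- Moving the second point does not change the translated subtree. -/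
lemma T_step (g : FreeGroup ι) (y : Y) (d : Dir) :
    S.T (g * ltr (S.lam y d)) (S.step y d) = S.T g y := by
  ext t
  simp only [T, Set.mem_ofPred_eq, mem_Z_step]
  have : ltr (S.lam y d) * ((g * ltr (S.lam y d))⁻¹ * t) = g⁻¹ * t := by group
  rw [this]

lemma T_parent (g : FreeGroup ι) (y : Y) (t : FreeGroup ι) (ht : t ∈ S.T g y) (b : ι × Bool)
    (h : (g⁻¹ * t * (ltr b)⁻¹).norm < (g⁻¹ * t).norm) : t * (ltr b)⁻¹ ∈ S.T g y := by
  have := S.Z_parent y (g⁻¹ * t) ht b h
  rw [mul_assoc] at this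
  exact this

end Sys

/-- The distance of a point to a set. -/
noncomputable def dT {ι : Type} [DecidableEq ι] (T : Set (FreeGroup ι)) (c : FreeGroup ι) : ℕ :=
  sInf {n | ∃ t ∈ T, (c⁻¹ * t).norm = n}

lemma dT_le {ι : Type} [DecidableEq ι] (T : Set (FreeGroup ι)) (c t : FreeGroup ι) (ht : t ∈ T) :
    dT T c ≤ (c⁻¹ * t).norm := Nat.sInf_le ⟨t, ht, rfl⟩

lemma exists_dT {ι : Type} [DecidableEq ι] (T : Set (FreeGroup ι)) (hT : T.Nonempty)
    (c : FreeGroup ι) : ∃ t ∈ T, (c⁻¹ * t).norm = dT T c := by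
  have : {n | ∃ t ∈ T, (c⁻¹ * t).norm = n}.Nonempty := by
    obtain ⟨t, ht⟩ := hT; exact ⟨_, t, ht, rfl⟩
  exact Nat.sInf_mem this

namespace Sys

variable {ι Y : Type} [DecidableEq ι] (S : Sys ι Y)

/-- The set of the vertices of the subtree nearest to `T`. -/
def Sc (y : Y) (T : Set (FreeGroup ι)) : Set (FreeGroup ι) :=
  {c | c ∈ S.Z y ∧ ∀ c' ∈ S.Z y, dT T c ≤ dT T c'}

lemma Sc_nonempty (y : Y) (T : Set (FreeGroup ι)) : (S.Sc y T).Nonempty := by
  have h : (Set.image (dT T) (S.Z y)).Nonempty := ⟨_, 1, S.one_mem_Z y, rfl⟩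
  obtain ⟨c, hc, he⟩ := Nat.sInf_mem h
  refine ⟨c, hc, fun c' hc' => ?_⟩
  rw [he]
  exact Nat.sInf_le ⟨c', hc', rfl⟩

/-- Moving the first point translates the picture. -/
lemma Sc_step (y : Y) (d : Dir) (T : Set (FreeGroup ι)) :
    S.Sc (S.step y d) {t | ltr (S.lam y d) * t ∈ T} = {c | ltr (S.lam y d) * c ∈ S.Sc y T} := by
  set a := ltr (S.lam y d) with ha
  have hd : ∀ c, dT {t | a * t ∈ T} c = dT T (a * c) := by
    intro c
    unfold dT
    congr 1
    ext n
    constructor
    · rintro ⟨t, ht, rfl⟩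
      refine ⟨a * t, ht, ?_⟩
      congr 1; group
    · rintro ⟨t, ht, rfl⟩
      refine ⟨a⁻¹ * t, by simpa using ht, ?_⟩
      congr 1; group
  ext c
  simp only [Sc, Set.mem_ofPred_eq, mem_Z_step, hd, ← ha]
  constructor
  · rintro ⟨h1, h2⟩
    refine ⟨h1, fun c' hc' => ?_⟩
    have := h2 (a⁻¹ * c') (by simpa using hc')
    simpa using this
  · rintro ⟨h1, h2⟩
    exact ⟨h1, fun c' hc' => h2 _ hc'⟩

omit [DecidableEq ι] in
lemma T_inv_step (g : FreeGroup ι) (a : FreeGroup ι) (y' : Y) :
    S.T (a⁻¹ * g) y' = {t | a * t ∈ S.T g y'} := by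
  ext t
  simp only [T, Set.mem_ofPred_eq]
  have : (a⁻¹ * g)⁻¹ * t = g⁻¹ * (a * t) := by group
  rw [this]

/-- A nearest vertex outside of `T` is near to `1`. -/
lemma norm_le_of_mem_Sc (y : Y) (g : FreeGroup ι) (y' : Y) (c : FreeGroup ι)
    (hc : c ∈ S.Sc y (S.T g y')) (hcT : c ∉ S.T g y') : c.norm ≤ g.norm := by
  obtain ⟨t, ht, htm⟩ := exists_dT (S.T g y') (S.T_nonempty g y') c
  have hne : c⁻¹ * t ≠ 1 := by
    intro h
    apply hcT
    have : c = t := by
      rw [inv_mul_eq_one] at h; exact h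
    rw [this]; exact ht
  have h1 : (c * (c⁻¹ * t)).norm = c.norm + (c⁻¹ * t).norm := by
    by_contra hcon
    have hlt : (c * (c⁻¹ * t)).norm < c.norm + (c⁻¹ * t).norm :=
      lt_of_le_of_ne (FreeGroup.norm_mul_le _ _) hcon
    obtain ⟨b, hb1, hb2⟩ := exists_cancel' _ _ hlt
    have hz := S.Z_parent y c hc.1 b hb1
    have h3 := hc.2 _ hz
    have h4 := dT_le (S.T g y') (c * (ltr b)⁻¹) t ht
    have e : (c * (ltr b)⁻¹)⁻¹ * t = ltr b * (c⁻¹ * t) := by group
    rw [e] at h4
    omega
  have h2 : ((c⁻¹ * t) * (t⁻¹ * g)).norm = (c⁻¹ * t).norm + (t⁻¹ * g).norm := by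
    by_contra hcon
    have hlt : ((c⁻¹ * t) * (t⁻¹ * g)).norm < (c⁻¹ * t).norm + (t⁻¹ * g).norm :=
      lt_of_le_of_ne (FreeGroup.norm_mul_le _ _) hcon
    obtain ⟨b, hb1, hb2⟩ := exists_cancel' _ _ hlt
    have e1 : (ltr b * (t⁻¹ * g)).norm = (g⁻¹ * t * (ltr b)⁻¹).norm := by
      rw [← FreeGroup.norm_inv_eq]; congr 1; group
    have e2 : (t⁻¹ * g).norm = (g⁻¹ * t).norm := by
      rw [← FreeGroup.norm_inv_eq]; congr 1; group
    rw [e1, e2] at hb2
    have hz := S.T_parent g y' t ht b hb2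
    have h4 := dT_le (S.T g y') c _ hz
    rw [mul_assoc] at hb1
    omega
  have h3 := norm_triple c (c⁻¹ * t) (t⁻¹ * g) h1 h2 hne
  have e : c * (c⁻¹ * t) * (t⁻¹ * g) = g := by group
  rw [e] at h3
  omega

lemma dT_zero_iff (g : FreeGroup ι) (y' : Y) (c : FreeGroup ι) :
    dT (S.T g y') c = 0 ↔ c ∈ S.T g y' := by
  constructor
  · intro h
    obtain ⟨t, ht, htm⟩ := exists_dT (S.T g y') (S.T_nonempty g y') c
    rw [h, FreeGroup.norm_eq_zero, inv_mul_eq_one] at htm
    rw [htm]; exact ht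
  · intro h
    have := dT_le (S.T g y') c c h
    simpa using this

/-- If a common vertex is farther than `g`, its parent is common. -/
lemma common_parent (y : Y) (g : FreeGroup ι) (y' : Y) (c : FreeGroup ι) (h1 : c ∈ S.Z y)
    (h2 : c ∈ S.T g y') (h : g.norm < c.norm) :
    ∃ u, u ∈ S.Z y ∧ u ∈ S.T g y' ∧ u.norm + 1 = c.norm := by
  have hlt : (c * (c⁻¹ * g)).norm < c.norm + (c⁻¹ * g).norm := by
    have e : c * (c⁻¹ * g) = g := by group
    rw [e]; omega
  obtain ⟨b, hb1, hb2⟩ := exists_cancel' _ _ hlt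
  have e1 : (ltr b * (c⁻¹ * g)).norm = (g⁻¹ * c * (ltr b)⁻¹).norm := by
    rw [← FreeGroup.norm_inv_eq]; congr 1; group
  have e2 : (c⁻¹ * g).norm = (g⁻¹ * c).norm := by
    rw [← FreeGroup.norm_inv_eq]; congr 1; group
  rw [e1, e2] at hb2
  refine ⟨c * (ltr b)⁻¹, S.Z_parent y c h1 b hb1, S.T_parent g y' c h2 b hb2, ?_⟩
  have := norm_mul_ltr_le (c * (ltr b)⁻¹) b
  have e3 : c * (ltr b)⁻¹ * ltr b = c := by group
  rw [e3] at this
  omega

lemma common_at (y : Y) (g : FreeGroup ι) (y' : Y) (c : FreeGroup ι) (h1 : c ∈ S.Z y)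
    (h2 : c ∈ S.T g y') (r : ℕ) (hr : g.norm ≤ r) (h : r ≤ c.norm) :
    ∃ u, u ∈ S.Z y ∧ u ∈ S.T g y' ∧ u.norm = r := by
  obtain ⟨k, hk⟩ := Nat.exists_eq_add_of_le h
  induction k generalizing c with
  | zero => exact ⟨c, h1, h2, by omega⟩
  | succ k ih =>
    obtain ⟨u, hu1, hu2, hu3⟩ := S.common_parent y g y' c h1 h2 (by omega)
    exact ih u hu1 hu2 (by omega) (by omega)

/-- Infinite overlap gives a common vertex at every large level. -/
lemma exists_common [Finite ι] (y : Y) (g : FreeGroup ι) (y' : Y)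
    (hinf : ¬ (S.Sc y (S.T g y')).Finite) (r : ℕ) (hr : g.norm ≤ r) :
    ∃ u, u ∈ S.Z y ∧ u ∈ S.T g y' ∧ u.norm = r := by
  have : ∃ c ∈ S.Sc y (S.T g y'), r < c.norm := by
    by_contra hcon
    push Not at hcon
    exact hinf ((ball_finite' r).subset (fun c hc => hcon c hc))
  obtain ⟨c, hc, hcr⟩ := this
  have hcT : c ∈ S.T g y' := by
    by_contra hcT
    have := S.norm_le_of_mem_Sc y g y' c hc hcT
    omega
  exact S.common_at y g y' c hc.1 hcT r hr hcr.le

end Sys

end Pool.Agent.H45.KA
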